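import Pool.Agent.H17.SD.Asm
import Pool.Agent.H84.SF.Geo2

/-!
# MP_70ba79_ag, THEOREM S (surfaces): the hypotheses of chapter 11 from chapter 1
-/

set_option autoImplicit false

namespace Pool.Agent.H17.SFG

open MvPolynomial SC Pool.Agent.H27.LV
open Pool.Agent.H92.SF Pool.Agent.H3.SF Pool.Agent.H17.SD

section

variable {k F σ : Type} [Field k] [Field F] [Algebra k F] [Fintype σ]

theorem span_form (X : σ → F) {a : F} (ha : a ∈ Submodule.span k (Set.range X)) :
    ∃ U : MvPolynomial σ k, U.IsHomogeneous 1 ∧ aeval X U = a := by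
  obtain ⟨c, hc⟩ := (Submodule.mem_span_range_iff_exists_fun k).1 ha
  refine ⟨∑ s, C (c s) * MvPolynomial.X s, ?_, ?_⟩
  · refine IsHomogeneous.sum _ _ _ fun s _ => ?_
    have h := (isHomogeneous_C σ (c s)).mul (isHomogeneous_X k s)
    rwa [zero_add] at h
  · rw [map_sum, ← hc]
    refine Finset.sum_congr rfl fun s _ => ?_
    rw [map_mul, algHom_C, aeval_X, Algebra.smul_def]

omit [Fintype σ] in
theorem span_PA (X : σ → F) {a : F} (ha : a ∈ Submodule.span k (Set.range X)) : a ∈ PA k X := by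
  have h1 : Submodule.span k (Set.range X) ≤ (PA k X).toSubmodule :=
    Submodule.span_le.2 Algebra.subset_adjoin
  exact h1 ha

omit [Fintype σ] in
theorem PB_le (X : σ → F) (u : Fin 3 → F) (θ : F) (hul : ∀ l, u l ∈ Submodule.span k (Set.range X))
    (htl : θ ∈ Submodule.span k (Set.range X)) : PB k u θ ≤ PA k X := by
  refine Algebra.adjoin_le ?_
  rintro b (rfl | ⟨l, rfl⟩)
  · exact span_PA X htl
  · exact span_PA X (hul l)

/-- the coordinates -/
theorem prj_cor (X : σ → F) (u : Fin 3 → F) (θ : F) (dd : Fin 3 → Derivation k F F)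
    (J : MvPolynomial (Fin 3) k) (h : Prj X u θ dd J) : Pool.Agent.H84.SF.Cor X u dd J :=
  ⟨fun l => span_form X (h.ulin l), h.Xint, h.Xeu, fun a ha => PB_le X u θ h.ulin h.tlin (h.JI a ha)⟩

/-- the Jacobian criterion -/
theorem smo_smg (X : σ → F) (m : ℕ) (G : MvPolynomial σ k) (hG : G.IsHomogeneous m)
    (h : Smo X G) : Pool.Agent.H84.SF.SmG (k := k) X m (aeval X G) := by
  refine ⟨G, hG, rfl, fun s hs0 hs hsG => ?_⟩
  by_contra hlt
  rw [not_le] at hlt
  have hfd : FiniteDimensional k (Pool.Agent.H84.SF.Tng X s G) := inferInstance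
  obtain ⟨b⟩ : Nonempty (Module.Basis (Fin (Module.finrank k (Pool.Agent.H84.SF.Tng X s G))) k
    (Pool.Agent.H84.SF.Tng X s G)) := ⟨Module.finBasis k _⟩
  have hb := b.linearIndependent
  set y : Fin 3 → σ → k := fun i => (b (Fin.castLE hlt i) : σ → k) with hy
  have hyi : LinearIndependent k y := by
    have h1 : LinearIndependent k (fun i : Fin 3 => b (Fin.castLE hlt i)) :=
      hb.comp _ (Fin.castLE_injective hlt)
    exact h1.map' (Pool.Agent.H84.SF.Tng X s G).subtype (Submodule.ker_subtype _)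
  refine h s hs0 (fun f hf => hs.pt f hf) hsG y ?_ hyi
  intro i f hf
  have hmem := (b (Fin.castLE hlt i)).2
  rcases hf with hf | rfl
  · exact hmem.1 f hf
  · exact hmem.2

end

end Pool.Agent.H17.SFG
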