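import Pool.Agent.H17.SD.Targets3

/-!
# MP_70ba79_ag, THEOREM S (surfaces), chapter 1, row GRD: the grading
-/

set_option autoImplicit false

namespace Pool.Agent.H17.SFG

open MvPolynomial SC Pool.Agent.H27.LV
open Pool.Agent.H92.SF Pool.Agent.H3.SF Pool.Agent.H17.SD

/-- a polynomial with coefficients in a vector space and values in a subspace -/
theorem vdm {k V : Type} [Field k] [Infinite k] [AddCommGroup V] [Module k V]
    (S : Submodule k V) (n : ℕ) (b : ℕ → V)
    (h : ∀ c : k, c ≠ 0 → ∑ t ∈ Finset.range n, c ^ t • b t ∈ S) :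
    ∀ t ∈ Finset.range n, b t ∈ S := by
  intro t ht
  rw [← Submodule.Quotient.mk_eq_zero S]
  rw [← Module.forall_dual_apply_eq_zero_iff k]
  intro f
  set P : Polynomial k := ∑ t ∈ Finset.range n,
    Polynomial.C (f (Submodule.Quotient.mk (b t))) * Polynomial.X ^ t with hP
  have hP0 : P = 0 := by
    have hev : ∀ c : k, c ≠ 0 → P.eval c = 0 := by
      intro c hc
      have h1 := h c hc
      rw [← Submodule.Quotient.mk_eq_zero S] at h1
      have h2 := congrArg f h1
      rw [map_zero] at h2
      have h3 : f (Submodule.Quotient.mk (∑ t ∈ Finset.range n, c ^ t • b t)) = P.eval c := by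
        rw [hP, Polynomial.eval_finsetSum]
        have h4 : (Submodule.Quotient.mk (∑ t ∈ Finset.range n, c ^ t • b t) : V ⧸ S) =
            ∑ t ∈ Finset.range n, c ^ t • (Submodule.Quotient.mk (b t) : V ⧸ S) := by
          have h5 : ∀ x : V, (Submodule.Quotient.mk x : V ⧸ S) = S.mkQ x := fun x => rfl
          rw [h5, map_sum]
          exact Finset.sum_congr rfl fun t _ => by rw [map_smul]; rfl
        rw [h4, map_sum]
        refine Finset.sum_congr rfl fun t _ => ?_
        rw [map_smul, smul_eq_mul, Polynomial.eval_mul, Polynomial.eval_C, Polynomial.eval_pow,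
          Polynomial.eval_X, mul_comm]
      rw [← h3, h2]
    by_contra hne
    have hfin : (P.rootSet k).Finite := Polynomial.rootSet_finite P k
    have hsub : ({0}ᶜ : Set k) ⊆ P.rootSet k := by
      intro c hc
      rw [Polynomial.mem_rootSet]
      refine ⟨hne, ?_⟩
      rw [Polynomial.aeval_def, Polynomial.eval₂_eq_eval_map, Algebra.algebraMap_self,
        Polynomial.map_id]
      exact hev c hc
    exact (Set.Finite.infinite_compl (Set.finite_singleton (0 : k))) (hfin.subset hsub)
  have hc := congrArg (fun q : Polynomial k => q.coeff t) hP0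
  simp only [Polynomial.coeff_zero] at hc
  rw [hP, Polynomial.finsetSum_coeff, Finset.sum_eq_single t] at hc
  · simpa using hc
  · intro s _ hs
    rw [Polynomial.coeff_C_mul, Polynomial.coeff_X_pow, if_neg hs.symm, mul_zero]
  · intro h'
    exact absurd ht h'

section

variable {k F σ : Type} [Field k] [Field F] [Algebra k F]

/-- scaling -/
theorem aeval_scale (X : σ → F) (c : k) (f : MvPolynomial σ k) :
    aeval (fun s => c • X s) f =
      ∑ d ∈ Finset.range (f.totalDegree + 1), c ^ d • aeval X (homogeneousComponent d f) := by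
  have h1 : ∀ (d : ℕ) (g : MvPolynomial σ k), g.IsHomogeneous d →
      aeval (fun s => c • X s) g = c ^ d • aeval X g := by
    intro d g hg
    have h2 : aeval (fun s => c • X s) g = aeval X (aeval (fun s => C c * MvPolynomial.X s) g :
        MvPolynomial σ k) := by
      rw [← AlgHom.comp_apply]
      congr 1
      refine MvPolynomial.algHom_ext fun s => ?_
      rw [aeval_X, AlgHom.comp_apply, aeval_X, map_mul, algHom_C, aeval_X, Algebra.smul_def]
    rw [h2]
    have h3 : (aeval (fun s => C c * MvPolynomial.X s) g : MvPolynomial σ k) = C (c ^ d) * g := by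
      have h4 := hg
      conv_lhs => rw [g.as_sum]
      conv_rhs => rw [g.as_sum]
      rw [map_sum, Finset.mul_sum]
      refine Finset.sum_congr rfl fun m hm => ?_
      have hmd : m.sum (fun _ e => e) = d := by
        have := h4 (mem_support_iff.1 hm)
        rw [Finsupp.weight_apply] at this
        simpa using this
      rw [aeval_monomial, algebraMap_eq]
      have h5 : (m.prod fun s e => (C c * MvPolynomial.X s : MvPolynomial σ k) ^ e) =
          C (c ^ d) * m.prod fun s e => (MvPolynomial.X s : MvPolynomial σ k) ^ e := by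
        rw [← hmd]
        unfold Finsupp.prod Finsupp.sum
        rw [← Finset.prod_pow_eq_pow_sum, map_prod, ← Finset.prod_mul_distrib]
        refine Finset.prod_congr rfl fun s _ => ?_
        change (C c * MvPolynomial.X s) ^ (m s) = C (c ^ (m s)) * (MvPolynomial.X s) ^ (m s)
        rw [mul_pow, map_pow]
      rw [h5, monomial_eq (s := m)]
      ring
    rw [h3, map_mul, algHom_C, Algebra.smul_def]
  conv_lhs => rw [← sum_homogeneousComponent f]
  rw [map_sum]
  exact Finset.sum_congr rfl fun d _ => h1 d _ (homogeneousComponent_isHomogeneous d f)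

end

theorem pf_GRD : T_GRD := by
  intro k F σ _ _ _ _ _ X u θ dd J j0 hrel hul htl hXe hJh hJ0 hJI a ha
  have hF : CharZero F := charZero_of_injective_algebraMap (algebraMap k F).injective
  have hspan : ∀ b ∈ Submodule.span k (Set.range X), ∃ c : σ → k, b = ∑ s, c s • X s := by
    intro b hb
    obtain ⟨c, hc⟩ := (Submodule.mem_span_range_iff_exists_fun k).1 hb
    exact ⟨c, hc.symm⟩
  choose c hc using fun l => hspan (u l) (hul l)
  set U : Fin 3 → MvPolynomial σ k := fun l => ∑ s, C (c l s) * MvPolynomial.X s with hU
  have hUe : ∀ (Z : σ → F) (l : Fin 3), aeval Z (U l) = ∑ s, c l s • Z s := by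
    intro Z l
    simp only [hU]
    rw [map_sum]
    refine Finset.sum_congr rfl fun s _ => ?_
    rw [map_mul, algHom_C, aeval_X, Algebra.smul_def]
  have hUX : ∀ l, aeval X (U l) = u l := fun l => by rw [hUe, hc l]
  -- the numerator
  have hPBX : PB k u θ ≤ PA k X := by
    refine Algebra.adjoin_le ?_
    have hsp : ∀ b ∈ Submodule.span k (Set.range X), b ∈ PA k X := by
      intro b hb
      have h1 : Submodule.span k (Set.range X) ≤ (PA k X).toSubmodule :=
        Submodule.span_le.2 Algebra.subset_adjoin
      exact h1 hb
    rintro b (rfl | ⟨l, rfl⟩)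
    · exact hsp _ htl
    · exact hsp _ (hul l)
  obtain ⟨pc, hpc⟩ : ∃ pc : MvPolynomial σ k, aeval X pc = aeval u J * a := by
    have h1 := hPBX (hJI a ha)
    change _ ∈ Algebra.adjoin k (Set.range X) at h1
    rw [Algebra.adjoin_range_eq_range_aeval] at h1
    exact h1
  obtain ⟨P, hPm, hPa⟩ := ha
  set n := P.natDegree with hn
  set f : MvPolynomial σ k := ∑ i ∈ Finset.range (n + 1),
    aeval U (P.coeff i) * pc ^ i * (aeval U J) ^ (n - i) with hf
  have hev : ∀ Z : σ → F, aeval Z f = ∑ i ∈ Finset.range (n + 1),
      aeval (fun l => aeval Z (U l)) (P.coeff i) * (aeval Z pc) ^ i *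
        (aeval (fun l => aeval Z (U l)) J) ^ (n - i) := by
    intro Z
    rw [hf, map_sum]
    refine Finset.sum_congr rfl fun i _ => ?_
    rw [map_mul, map_mul, map_pow, map_pow]
    have h1 : ∀ q : MvPolynomial (Fin 3) k, aeval Z (aeval U q) =
        aeval (fun l => aeval Z (U l)) q := by
      intro q
      rw [← AlgHom.comp_apply]
      congr 1
      refine MvPolynomial.algHom_ext fun s => ?_
      rw [AlgHom.comp_apply, aeval_X, aeval_X]
    rw [h1, h1]
  have hf0 : aeval X f = 0 := by
    rw [hev]
    simp only [hUX]
    have h1 : ∑ i ∈ Finset.range (n + 1), aeval u (P.coeff i) * (aeval X pc) ^ i *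
        (aeval u J) ^ (n - i) = (aeval u J) ^ n *
        ∑ i ∈ Finset.range (n + 1), aeval u (P.coeff i) * a ^ i := by
      rw [Finset.mul_sum]
      refine Finset.sum_congr rfl fun i hi => ?_
      rw [Finset.mem_range] at hi
      rw [hpc, mul_pow]
      have h2 : (aeval u J : F) ^ n = (aeval u J) ^ i * (aeval u J) ^ (n - i) := by
        rw [← pow_add]; congr 1; omega
      rw [h2]
      ring
    rw [h1]
    have h2 : ∑ i ∈ Finset.range (n + 1), aeval u (P.coeff i) * a ^ i = 0 := by
      rw [← hPa, Polynomial.eval₂_eq_sum_range]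
      rfl
    rw [h2, mul_zero]
  -- scaled elements are integral
  set b : ℕ → F := fun d => aeval X (homogeneousComponent d pc) / aeval u J with hb
  have hscal : ∀ q : k, q ≠ 0 →
      ∑ d ∈ Finset.range (pc.totalDegree + 1), q ^ d • b d ∈ Subalgebra.toSubmodule (Bb k u) := by
    intro q hq
    have h1 : aeval (fun s => q • X s) f = 0 := by
      rw [aeval_scale]
      exact Finset.sum_eq_zero fun d _ => by rw [hrel f hf0 d, smul_zero]
    rw [hev] at h1
    have h2 : ∀ l, aeval (fun s => q • X s) (U l) = q • u l := by
      intro l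
      rw [hUe, hc l, Finset.smul_sum]
      exact Finset.sum_congr rfl fun s _ => by rw [smul_comm]
    simp only [h2] at h1
    have hJs : aeval (fun l => q • u l) J = q ^ j0 • aeval u J := by
      rw [aeval_scale, Finset.sum_eq_single j0]
      · rw [homogeneousComponent_of_mem hJh, if_pos rfl]
      · intro d _ hd
        rw [homogeneousComponent_of_mem hJh, if_neg (fun h => hd h), map_zero, smul_zero]
      · intro hd
        rw [Finset.mem_range, not_lt] at hd
        rw [homogeneousComponent_eq_zero _ _ (by omega), map_zero, smul_zero]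
    have hJq : aeval (fun l => q • u l) J ≠ 0 := by
      rw [hJs]
      exact smul_ne_zero (pow_ne_zero _ hq) hJ0
    set aq : F := aeval (fun s => q • X s) pc / aeval (fun l => q • u l) J with haq
    have h3 : Itg k u aq := by
      set sc : MvPolynomial (Fin 3) k →+* MvPolynomial (Fin 3) k :=
        (aeval (fun l => C q * MvPolynomial.X l) :
          MvPolynomial (Fin 3) k →ₐ[k] MvPolynomial (Fin 3) k).toRingHom with hsc
      have hsce : ∀ p : MvPolynomial (Fin 3) k, aeval u (sc p) = aeval (fun l => q • u l) p := by
        intro p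
        have h4 : aeval u (aeval (fun l => C q * MvPolynomial.X l :
            Fin 3 → MvPolynomial (Fin 3) k) p) = aeval (fun l => q • u l) p := by
          rw [← AlgHom.comp_apply]
          congr 1
          refine MvPolynomial.algHom_ext fun s => ?_
          rw [AlgHom.comp_apply, aeval_X, aeval_X, map_mul, algHom_C, aeval_X, Algebra.smul_def]
        exact h4
      refine ⟨P.map sc, hPm.map sc, ?_⟩
      rw [Polynomial.eval₂_map, Polynomial.eval₂_eq_sum_range]
      have h4 : ∑ i ∈ Finset.range (n + 1), aeval (fun l => q • u l) (P.coeff i) * aq ^ i = 0 := by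
        have h5 : (aeval (fun l => q • u l) J) ^ n *
            ∑ i ∈ Finset.range (n + 1), aeval (fun l => q • u l) (P.coeff i) * aq ^ i = 0 := by
          rw [← h1, Finset.mul_sum]
          refine Finset.sum_congr rfl fun i hi => ?_
          rw [Finset.mem_range] at hi
          have h6 : (aeval (fun l => q • u l) J : F) ^ n =
            (aeval (fun l => q • u l) J) ^ i * (aeval (fun l => q • u l) J) ^ (n - i) := by
            rw [← pow_add]; congr 1; omega
          rw [h6, haq, div_pow]
          field_simp
        rcases mul_eq_zero.1 h5 with h6 | h6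
        · exact absurd h6 (pow_ne_zero _ hJq)
        · exact h6
      rw [← h4]
      refine Finset.sum_congr rfl fun i _ => ?_
      congr 1
      exact hsce _
    have h4 : ∑ d ∈ Finset.range (pc.totalDegree + 1), q ^ d • b d = q ^ j0 • aq := by
      rw [haq, hJs, aeval_scale]
      simp only [hb]
      have h5 : ∀ d, q ^ d • (aeval X (homogeneousComponent d pc) / aeval u J) =
          (q ^ d • aeval X (homogeneousComponent d pc)) / aeval u J := fun d => by
        rw [smul_div_assoc]
      rw [Finset.sum_congr rfl fun d _ => h5 d, ← Finset.sum_div]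
      rw [Algebra.smul_def (q ^ j0) (aeval u J), Algebra.smul_def]
      have h6 : algebraMap k F (q ^ j0) ≠ 0 := by
        rw [Ne, FaithfulSMul.algebraMap_eq_zero_iff]
        exact pow_ne_zero _ hq
      field_simp
    rw [h4]
    exact (Bb k u).smul_mem h3 _
  have hbI := vdm (Subalgebra.toSubmodule (Bb k u)) (pc.totalDegree + 1) b hscal
  have hasum : a = ∑ d ∈ Finset.range (pc.totalDegree + 1), b d := by
    simp only [hb]
    rw [← Finset.sum_div, ← map_sum, sum_homogeneousComponent, hpc, mul_div_cancel_left₀ _ hJ0]
  have hEm : ∀ (τ : Type) (Z : τ → F) (D : Derivation k F F), (∀ s, D (Z s) = Z s) → ∀ (d : ℕ)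
      (g : MvPolynomial τ k), g.IsHomogeneous d → D (aeval Z g) = (d : F) * aeval Z g := by
    intro τ Z D hD d g hg
    have hmon : ∀ m : τ →₀ ℕ, D (m.prod fun s e => Z s ^ e) =
        ((m.sum fun _ e => e : ℕ) : F) * m.prod fun s e => Z s ^ e := by
      intro m
      induction m using Finsupp.induction_linear with
      | zero => simp
      | add x y hx hy =>
        rw [Finsupp.prod_add_index' (fun _ => pow_zero _) (fun _ _ _ => pow_add _ _ _),
          Finsupp.sum_add_index' (fun _ => rfl) (fun _ _ _ => rfl), Derivation.leibniz, hx, hy,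
          smul_eq_mul, smul_eq_mul]
        push_cast
        ring
      | single s e =>
        have e1 : (Finsupp.single s e).prod (fun s e => Z s ^ e) = Z s ^ e :=
          Finsupp.prod_single_index (pow_zero _)
        have e2 : (Finsupp.single s e).sum (fun _ e => e) = e := Finsupp.sum_single_index rfl
        rw [e1, e2, Derivation.leibniz_pow, hD]
        rcases e with _ | e
        · simp
        · rw [Nat.add_sub_cancel, smul_eq_mul, nsmul_eq_mul, pow_succ]
    conv_lhs => rw [g.as_sum]
    conv_rhs => rw [g.as_sum]
    rw [map_sum, map_sum, Finset.mul_sum]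
    refine Finset.sum_congr rfl fun m hm => ?_
    have hmd : m.sum (fun _ e => e) = d := by
      have := hg (mem_support_iff.1 hm)
      rw [Finsupp.weight_apply] at this
      simpa using this
    rw [aeval_monomial, ← Algebra.smul_def, Derivation.map_smul, hmon, hmd, mul_smul_comm]
  rw [hasum]
  refine Submodule.sum_mem _ fun d hd => ?_
  refine Submodule.mem_iSup_of_mem ((d : ℤ) - j0) ⟨hbI d hd, ?_⟩
  unfold Hm
  have h1 := hEm σ X (eu u dd) hXe d _ (homogeneousComponent_isHomogeneous d pc)
  have hue : ∀ l, eu u dd (u l) = u l := by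
    intro l
    rw [hc l, map_sum]
    refine Finset.sum_congr rfl fun s _ => ?_
    rw [Derivation.map_smul, hXe]
  have h2 := hEm (Fin 3) u (eu u dd) hue j0 J hJh
  simp only [hb]
  rw [Derivation.leibniz_div, h1, h2]
  push_cast
  simp only [smul_eq_mul]
  field_simp

end Pool.Agent.H17.SFG
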