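import Pool.Agent.H17.SFG.CRH
import Pool.Agent.H17.SFG.GRD
import Pool.Agent.H17.SFG.COR
import Pool.Agent.H20.SFG.BBD
import Pool.Agent.H54.SFG.BBN
import Pool.Agent.H42.SFG.BBQ
import Pool.Agent.H77.SFG.CHN
import Pool.Agent.H14.SFG.CRP
import Pool.Agent.H78.SFG.DET
import Pool.Agent.H40.SFG.DEX
import Pool.Agent.H19.SFG.DMA
import Pool.Agent.H19.SFG.DMB
import Pool.Agent.H49.SFG.DPR
import Pool.Agent.H77.SFG.DUN
import Pool.Agent.H36.SFG.EUL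
import Pool.Agent.H14.SFG.FRC
import Pool.Agent.H1.SFG.GMX
import Pool.Agent.H20.SFG.HMP
import Pool.Agent.H48.SFG.ITA
import Pool.Agent.H11.SFG.JEX
import Pool.Agent.H94.SFG.MNZ
import Pool.Agent.H20.SFG.MPC
import Pool.Agent.H20.SFG.MPH
import Pool.Agent.H19.SFG.NN
import Pool.Agent.H36.SFG.NN1
import Pool.Agent.H99.SFG.NRM
import Pool.Agent.H30.SFG.PHI
import Pool.Agent.H63.SFG.PRE
import Pool.Agent.H61.SFG.QDA
import Pool.Agent.H78.SFG.QDD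
import Pool.Agent.H19.SFG.QDH

/-!
# MP_70ba79_ag, THEOREM S (surfaces), chapter 1: all rows
-/

set_option autoImplicit false

namespace Pool.Agent.H17.SFG.A

open Pool.Agent.H17.SD

theorem ita : T_ITA := Pool.Agent.H48.SFG.pf_ITA
theorem mpc : T_MPC := Pool.Agent.H20.SFG.pf_MPC ita
theorem mph : T_MPH := Pool.Agent.H20.SFG.pf_MPH
theorem hmp : T_HMP := Pool.Agent.H20.SFG.pf_HMP
theorem nn1 : T_NN1 := Pool.Agent.H36.SFG.pf_NN1 ita
theorem nn : T_NN := Pool.Agent.H19.SFG.pf_NN ita nn1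
theorem pre : T_PRE := Pool.Agent.H63.SFG.pf_PRE
theorem nrm : T_NRM := Pool.Agent.H99.SFG.pf_NRM ita nn pre
theorem dex : T_DEX := Pool.Agent.H40.SFG.pf_DEX
theorem dun : T_DUN := Pool.Agent.H77.SFG.pf_DUN
theorem dpr : T_DPR := Pool.Agent.H49.SFG.pf_DPR dun
theorem eul : T_EUL := Pool.Agent.H36.SFG.pf_EUL ita mpc
theorem qdd : T_QDD := Pool.Agent.H78.SFG.pf_QDD ita mpc
theorem qdh : T_QDH := Pool.Agent.H19.SFG.pf_QDH ita mpc mph hmp
theorem chn : T_CHN := Pool.Agent.H77.SFG.pf_CHN ita mpc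
theorem phi : T_PHI := Pool.Agent.H30.SFG.pf_PHI
theorem dma : T_DMA := Pool.Agent.H19.SFG.pf_DMA hmp
theorem dmb : T_DMB := Pool.Agent.H19.SFG.pf_DMB ita mpc hmp dma
theorem bbd : T_BBD := Pool.Agent.H20.SFG.pf_BBD ita mpc mph hmp dmb
theorem bbn : T_BBN := Pool.Agent.H54.SFG.pf_BBN bbd dmb
theorem bbq : T_BBQ := Pool.Agent.H42.SFG.pf_BBQ bbd dmb
theorem det : T_DET := Pool.Agent.H78.SFG.pf_DET
theorem gmx : T_GMX := Pool.Agent.H1.SFG.pf_GMX det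
theorem mnz : T_MNZ := Pool.Agent.H94.SFG.pf_MNZ
theorem crp : T_CRP := Pool.Agent.H14.SFG.pf_CRP gmx mnz
theorem crh : T_CRH := Pool.Agent.H17.SFG.pf_CRH crp
theorem frc : T_FRC := Pool.Agent.H14.SFG.pf_FRC
theorem grd : T_GRD := Pool.Agent.H17.SFG.pf_GRD
theorem crv : T_CRV := pf_CRV crh ita

theorem sfc' (h : T_QDA) : T_SFC :=
  pf_SFC nrm dex dpr eul (Pool.Agent.H11.SFG.pf_JEX ita h qdd qdh) chn bbd bbn ita grd

theorem qda : T_QDA := Pool.Agent.H61.SFG.pf_QDA ita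
theorem sfc : T_SFC := sfc' qda

end Pool.Agent.H17.SFG.A
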