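import Pool.Agent.H17.SD.Targets2
import Pool.Agent.H17.SD.Asm

/-!
# MP_70ba79_ag, THEOREM S (surfaces), chapter 1, row CRH: homogeneous certificate
-/

set_option autoImplicit false

namespace Pool.Agent.H17.SFG

open MvPolynomial SC Pool.Agent.H27.LV
open Pool.Agent.H92.SF Pool.Agent.H3.SF Pool.Agent.H17.SD

section

variable {k F σ : Type} [Field k] [Field F] [Algebra k F] [Fintype σ]

/-- chain rule -/
theorem der_aeval (X : σ → F) (D : Derivation k F F) (p : MvPolynomial σ k) :
    D (aeval X p) = ∑ s, aeval X (pderiv s p) * D (X s) := by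
  induction p using MvPolynomial.induction_on with
  | C a =>
    rw [algHom_C, Derivation.map_algebraMap]
    symm
    refine Finset.sum_eq_zero fun s _ => ?_
    rw [pderiv_C, map_zero, zero_mul]
  | add p q hp hq =>
    rw [map_add, map_add, hp, hq, ← Finset.sum_add_distrib]
    refine Finset.sum_congr rfl fun s _ => ?_
    rw [map_add, map_add, add_mul]
  | mul_X p i hp =>
    rw [map_mul, aeval_X, Derivation.leibniz, hp, smul_eq_mul, smul_eq_mul, Finset.mul_sum]
    have h3 : ∀ s, aeval X (pderiv s (p * MvPolynomial.X i)) * D (X s) =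
        aeval X p * (aeval X (pderiv s (MvPolynomial.X i : MvPolynomial σ k)) *
          D (X s)) + X i * (aeval X (pderiv s p) * D (X s)) := by
      intro s
      rw [Derivation.leibniz, smul_eq_mul, smul_eq_mul, map_add, map_mul, map_mul, aeval_X]
      ring
    rw [Finset.sum_congr rfl fun s _ => h3 s, Finset.sum_add_distrib, ← Finset.mul_sum]
    congr 2
    rw [Finset.sum_eq_single i]
    · rw [pderiv_X_self, map_one, one_mul]
    · intro s _ hs
      rw [pderiv_X_of_ne hs.symm, map_zero, zero_mul, mul_zero]
    · intro h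
      exact absurd (Finset.mem_univ _) h

/-- values of forms are homogeneous -/
theorem hm_aeval (X : σ → F) (E : Derivation k F F) (hE : ∀ s, E (X s) = X s) (m : ℕ)
    (G : MvPolynomial σ k) (hG : G.IsHomogeneous m) : Hm k E m (aeval X G) := by
  unfold Hm
  rw [der_aeval]
  have he := hG.sum_X_mul_pderiv
  have h3 := congrArg (aeval X) he
  rw [map_sum, map_nsmul] at h3
  rw [show ((m : ℤ) : F) = (m : F) by push_cast; rfl, ← nsmul_eq_mul, ← h3]
  refine Finset.sum_congr rfl fun s _ => ?_
  rw [map_mul, aeval_X, mul_comm, hE]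

/-- eigenvectors of a derivation with different eigenvalues -/
theorem eig (D : Derivation k F F) [CharZero F] : ∀ (T : Finset ℤ) (a : ℤ → F),
    (∀ t ∈ T, Hm k D t (a t)) → ∑ t ∈ T, a t = 0 → ∀ t ∈ T, a t = 0 := by
  intro T
  induction T using Finset.induction_on with
  | empty => intro a _ _ t ht; exact absurd ht (Finset.notMem_empty _)
  | insert q T hq ih =>
    intro a ha hs
    have h1 : ∑ t ∈ T, ((t : F) - q) * a t = 0 := by
      have h2 := congrArg D hs
      rw [map_sum, map_zero, Finset.sum_insert hq] at h2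
      have h3 : ∑ t ∈ T, D (a t) = ∑ t ∈ T, (t : F) * a t :=
        Finset.sum_congr rfl fun t ht => ha t (Finset.mem_insert_of_mem ht)
      have h4 : D (a q) = (q : F) * a q := ha q (Finset.mem_insert_self _ _)
      rw [Finset.sum_insert hq] at hs
      have h5 : ∑ t ∈ T, ((t : F) - q) * a t = ∑ t ∈ T, (t : F) * a t - (q : F) * ∑ t ∈ T, a t := by
        rw [Finset.mul_sum, ← Finset.sum_sub_distrib]
        exact Finset.sum_congr rfl fun t _ => by ring
      rw [h5, ← h3]
      rw [h4] at h2
      linear_combination h2 - (q : F) * hs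
    have h2 := ih (fun t => ((t : F) - q) * a t) (fun t ht => by
      have h3 : D (a t) = (t : F) * a t := ha t (Finset.mem_insert_of_mem ht)
      unfold Hm
      have h4 : ((t : F) - q) * a t = (t - q : ℤ) • a t := by
        rw [zsmul_eq_mul]; push_cast; rfl
      rw [h4, map_zsmul, h3]
      rw [zsmul_eq_mul, zsmul_eq_mul]
      ring) h1
    have h3 : ∀ t ∈ T, a t = 0 := by
      intro t ht
      have h4 := h2 t ht
      rcases mul_eq_zero.1 h4 with h5 | h5
      · exfalso
        have h6 : ((t : ℤ) : F) = ((q : ℤ) : F) := sub_eq_zero.1 h5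
        have h7 : t = q := Int.cast_injective h6
        exact hq (h7 ▸ ht)
      · exact h5
    intro t ht
    rcases Finset.mem_insert.1 ht with rfl | ht
    · rw [Finset.sum_insert hq, Finset.sum_eq_zero h3, add_zero] at hs
      exact hs
    · exact h3 t ht

end

theorem pf_CRH (h1 : T_CRP) : T_CRH := by
  intro k F σ _ _ _ _ _ _ X u dd m G htr hind hul hXi hdd hcm hXe hm hG hsm
  have hF : CharZero F := charZero_of_injective_algebraMap (algebraMap k F).injective
  obtain ⟨c, hc⟩ := h1 k F σ X u dd m G htr hind hul hXi hdd hXe hm hG hsm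
  refine ⟨c, fun i => ?_⟩
  obtain ⟨e, he, hce⟩ := hc i
  have hp : ∀ l, ∃ p : MvPolynomial σ k, aeval X p = e l := by
    intro l
    have h2 := he l
    change e l ∈ Algebra.adjoin k (Set.range X) at h2
    rw [Algebra.adjoin_range_eq_range_aeval] at h2
    exact h2
  choose p hp using hp
  set E := eu u dd with hE
  set g : F := aeval X G with hg
  have hgm : Hm k E m g := hm_aeval X E hXe m G hG
  have hEdd : ∀ l, Hm k E ((m : ℤ) - 1) (dd l g) := by
    intro l
    unfold Hm at *
    have h2 := congrArg (dd l) hgm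
    rw [hE, eu_apply, map_sum] at h2
    rw [hE, eu_apply]
    have h3 : ∀ j, dd l (u j * dd j g) = u j * dd j (dd l g) + (if l = j then dd j g else 0) := by
      intro j
      rw [Derivation.leibniz, smul_eq_mul, smul_eq_mul, hdd, hcm l j]
      split_ifs <;> ring
    rw [Finset.sum_congr rfl fun j _ => h3 j, Finset.sum_add_distrib, Finset.sum_ite_eq,
      if_pos (Finset.mem_univ _)] at h2
    have h4 : dd l (((m : ℤ) : F) * g) = (m : F) * dd l g := by
      rw [show ((m : ℤ) : F) = algebraMap k F (m : k) by simp, ← Algebra.smul_def,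
        Derivation.map_smul, Algebra.smul_def]
      simp
    rw [h4] at h2
    push_cast
    linear_combination h2
  have hEmul : ∀ (a b : F) (s t : ℤ), Hm k E s a → Hm k E t b → Hm k E (s + t) (a * b) := by
    intro a b s t ha hb
    unfold Hm at *
    rw [Derivation.leibniz, smul_eq_mul, smul_eq_mul, ha, hb]
    push_cast
    ring
  have hpc : ∀ l d, Hm k E (d : ℕ) (aeval X (homogeneousComponent d (p l))) := fun l d =>
    hm_aeval X E hXe d _ (homogeneousComponent_isHomogeneous d (p l))
  have huc : Hm k E c (u i ^ c) := by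
    have h2 : ∀ n : ℕ, Hm k E n (u i ^ n) := by
      intro n
      induction n with
      | zero => unfold Hm; simp
      | succ n ih =>
        have h3 : Hm k E 1 (u i) := by
          unfold Hm
          rw [hE, eu_u u dd hdd]
          simp
        have h4 := hEmul _ _ _ _ ih h3
        rw [pow_succ]
        have h5 : ((n + 1 : ℕ) : ℤ) = (n : ℤ) + 1 := by push_cast; ring
        rw [h5]
        exact h4
    exact h2 c
  have hui : u i ^ c ≠ 0 := pow_ne_zero _ (hind.ne_zero i)
  -- a common bound for the degrees
  set M : ℕ := Finset.univ.sup (fun l => (p l).totalDegree) + 1 + c with hM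
  have hpd : ∀ l, p l = ∑ d ∈ Finset.range M, homogeneousComponent d (p l) := by
    intro l
    conv_lhs => rw [← sum_homogeneousComponent (p l)]
    refine Finset.sum_subset ?_ ?_
    · intro d hd
      rw [Finset.mem_range] at hd ⊢
      have h2 : (p l).totalDegree ≤ Finset.univ.sup (fun l => (p l).totalDegree) :=
        Finset.le_sup (f := fun l => (p l).totalDegree) (Finset.mem_univ l)
      omega
    · intro d _ hd
      rw [Finset.mem_range] at hd
      exact homogeneousComponent_eq_zero _ _ (by omega)
  set b : ℕ → F := fun d => ∑ l, aeval X (homogeneousComponent d (p l)) * dd l g with hb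
  have hbh : ∀ d : ℕ, Hm k E ((d : ℤ) + (m - 1)) (b d) := by
    intro d
    unfold Hm
    simp only [hb]
    rw [map_sum, Finset.mul_sum]
    refine Finset.sum_congr rfl fun l _ => ?_
    exact hEmul _ _ _ _ (hpc l d) (hEdd l)
  have hsum : u i ^ c = ∑ d ∈ Finset.range M, b d := by
    rw [hce]
    simp only [hb]
    rw [Finset.sum_comm]
    refine Finset.sum_congr rfl fun l _ => ?_
    rw [← hp l, ← Finset.sum_mul]
    congr 1
    conv_lhs => rw [hpd l]
    rw [map_sum]
  -- eigenvalues
  set a : ℤ → F := fun t => (if 0 ≤ t - (m - 1) then b (t - (m - 1)).toNat else 0) -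
    (if t = c then u i ^ c else 0) with ha
  set T : Finset ℤ := insert (c : ℤ) ((Finset.range M).image fun d : ℕ => (d : ℤ) + (m - 1))
    with hT
  have hinj : Set.InjOn (fun d : ℕ => (d : ℤ) + (m - 1)) (Finset.range M : Set ℕ) := by
    intro x _ y _ hxy
    have : (x : ℤ) + (m - 1) = y + (m - 1) := hxy
    omega
  have hbig : ∀ d, M ≤ d → b d = 0 := by
    intro d hd
    simp only [hb]
    refine Finset.sum_eq_zero fun l _ => ?_
    have h2 : (p l).totalDegree ≤ Finset.univ.sup (fun l => (p l).totalDegree) :=
      Finset.le_sup (f := fun l => (p l).totalDegree) (Finset.mem_univ l)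
    rw [homogeneousComponent_eq_zero _ _ (by omega), map_zero, zero_mul]
  have hae : ∀ t ∈ T, Hm k E t (a t) := by
    intro t _
    have h2 : Hm k E t (if 0 ≤ t - (m - 1) then b (t - (m - 1)).toNat else 0) := by
      split_ifs with h
      · have h3 := hbh (t - (m - 1)).toNat
        have h4 : (((t - (m - 1)).toNat : ℤ) + (m - 1)) = t := by
          rw [Int.toNat_of_nonneg h]; ring
        rw [h4] at h3
        exact h3
      · unfold Hm; simp
    have h3 : Hm k E t (if t = c then u i ^ c else 0) := by
      split_ifs with h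
      · rw [h]; exact huc
      · unfold Hm; simp
    unfold Hm at *
    simp only [ha]
    rw [map_sub, h2, h3, mul_sub]
  have has : ∑ t ∈ T, a t = 0 := by
    simp only [ha]
    rw [Finset.sum_sub_distrib]
    have h2 : ∑ t ∈ T, (if t = (c : ℤ) then u i ^ c else 0) = u i ^ c := by
      rw [Finset.sum_ite_eq', if_pos (Finset.mem_insert_self _ _)]
    have h3 : ∑ t ∈ T, (if 0 ≤ t - ((m : ℤ) - 1) then b (t - (m - 1)).toNat else 0) = u i ^ c := by
      rw [hsum]
      have h4 : ∑ t ∈ (Finset.range M).image (fun d : ℕ => (d : ℤ) + (m - 1)),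
          (if 0 ≤ t - ((m : ℤ) - 1) then b (t - (m - 1)).toNat else 0) =
          ∑ d ∈ Finset.range M, b d := by
        rw [Finset.sum_image hinj]
        refine Finset.sum_congr rfl fun d _ => ?_
        have h5 : (d : ℤ) + (m - 1) - (m - 1) = d := by ring
        rw [h5, if_pos (by positivity), Int.toNat_natCast]
      rw [← h4]
      by_cases hc' : (c : ℤ) ∈ (Finset.range M).image (fun d : ℕ => (d : ℤ) + (m - 1))
      · rw [hT, Finset.insert_eq_of_mem hc']
      · rw [hT, Finset.sum_insert hc']
        have h6 : (if 0 ≤ (c : ℤ) - ((m : ℤ) - 1) then b ((c : ℤ) - (m - 1)).toNat else 0) = 0 := by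
          split_ifs with h
          · refine hbig _ ?_
            by_contra hlt
            apply hc'
            rw [Finset.mem_image]
            refine ⟨((c : ℤ) - (m - 1)).toNat, Finset.mem_range.2 (by omega), ?_⟩
            rw [Int.toNat_of_nonneg h]; ring
          · rfl
        rw [h6, zero_add]
    rw [h2, h3, sub_self]
  have hac := eig E T a hae has c (Finset.mem_insert_self _ _)
  simp only [ha, if_true] at hac
  have hcm1 : 0 ≤ (c : ℤ) - (m - 1) := by
    by_contra h
    rw [if_neg h, zero_sub, neg_eq_zero] at hac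
    exact hui hac
  rw [if_pos hcm1, sub_eq_zero] at hac
  set d0 : ℕ := ((c : ℤ) - (m - 1)).toNat with hd0
  have hd0' : (d0 : ℤ) = (c : ℤ) + 1 - m := by
    rw [hd0, Int.toNat_of_nonneg hcm1]; ring
  refine ⟨fun l => aeval X (homogeneousComponent d0 (p l)), fun l => ⟨?_, ?_, ?_⟩, hac.symm⟩
  · change _ ∈ Algebra.adjoin k (Set.range X)
    rw [Algebra.adjoin_range_eq_range_aeval]
    exact ⟨_, rfl⟩
  · have hle : PA k X ≤ Bb k u := by
      refine Algebra.adjoin_le ?_
      rintro b ⟨s, rfl⟩
      exact hXi s
    refine hle ?_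
    change _ ∈ Algebra.adjoin k (Set.range X)
    rw [Algebra.adjoin_range_eq_range_aeval]
    exact ⟨_, rfl⟩
  · rw [← hd0']
    exact hpc l d0

end Pool.Agent.H17.SFG
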