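import Pool.Agent.H17.SFG.UNI

/-!
# MP_70ba79_ag, THEOREM S (surfaces), chapter 1: the degree from the Hilbert function
-/

set_option autoImplicit false

namespace Pool.Agent.H17.SFG

open MvPolynomial SC Pool.Agent.H27.LV
open Pool.Agent.H92.SF Pool.Agent.H3.SF Pool.Agent.H17.SD

/-- the image of the forms of degree `t` -/
noncomputable abbrev HX (k : Type) {F σ : Type} [Field k] [Field F] [Algebra k F] (X : σ → F) (t : ℕ) :
    Submodule k F := (homogeneousSubmodule σ k t).map (aeval X : MvPolynomial σ k →ₐ[k] F).toLinearMap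

/-- the degree is at most `d` -/
def DegLe (k : Type) {F σ : Type} [Field k] [Field F] [Algebra k F] (X : σ → F) (d : ℕ) : Prop :=
  ∃ c : ℕ, ∀ t : ℕ, 2 * Module.finrank k (HX k X t) ≤ d * t ^ 2 + c * (t + 1)

/-- the same for a homogeneous ideal: the Hilbert function of the quotient -/
def DegI {k σ : Type} [Field k] (I : Ideal (MvPolynomial σ k)) (d : ℕ) : Prop :=
  ∃ c : ℕ, ∀ t : ℕ, 2 * Module.finrank k
    ((homogeneousSubmodule σ k t).map (Ideal.Quotient.mkₐ k I).toLinearMap) ≤ d * t ^ 2 + c * (t + 1)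

theorem hfin_hs (k σ : Type) [Field k] [Fintype σ] (t : ℕ) :
    Module.Finite k (homogeneousSubmodule σ k t) :=
  Module.Finite.iff_fg.2 (homogeneousSubmodule_fg σ k t)

section

variable {k F σ : Type} [Field k] [Field F] [Algebra k F] [Fintype σ]

/-- the Euler derivation of a polynomial -/
theorem euler_aeval' (u : σ → F) (E : Derivation k F F) (hE : ∀ i, E (u i) = u i)
    (P : MvPolynomial σ k) :
    E (aeval u P) = aeval u (∑ i, X i * pderiv i P) := by
  classical
  induction P using MvPolynomial.induction_on with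
  | C c =>
    rw [algHom_C, Derivation.map_algebraMap]
    simp
  | add p q hp hq =>
    rw [map_add, map_add, hp, hq, ← map_add, ← Finset.sum_add_distrib]
    refine congrArg _ (Finset.sum_congr rfl fun i _ => ?_)
    rw [map_add, mul_add]
  | mul_X p j hp =>
    rw [map_mul, Derivation.leibniz, hp, aeval_X, hE, smul_eq_mul, smul_eq_mul]
    have h1 : ∑ i, X i * pderiv i (p * X j) = X j * (∑ i, X i * pderiv i p) + p * X j := by
      have h2 : ∀ i, X i * pderiv i (p * X j) =
          X j * (X i * pderiv i p) + (if i = j then p * X j else 0) := by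
        intro i
        rw [Derivation.leibniz, smul_eq_mul, smul_eq_mul, pderiv_X]
        by_cases h : i = j
        · subst h
          rw [Pi.single_eq_same, if_pos rfl]
          ring
        · rw [Pi.single_eq_of_ne (Ne.symm h), if_neg h]
          ring
      rw [Finset.sum_congr rfl fun i _ => h2 i, Finset.sum_add_distrib, ← Finset.mul_sum,
        Finset.sum_ite_eq' Finset.univ j, if_pos (Finset.mem_univ j)]
    rw [h1, map_add, map_mul, map_mul, aeval_X]
    ring

theorem hm_homog' (u : σ → F) (E : Derivation k F F) (hE : ∀ i, E (u i) = u i)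
    (P : MvPolynomial σ k) (t : ℕ) (hP : P.IsHomogeneous t) : Hm k E t (aeval u P) := by
  unfold Hm
  rw [euler_aeval' u E hE, hP.sum_X_mul_pderiv, map_nsmul, nsmul_eq_mul, Int.cast_natCast]

end

theorem gr_le {k F σ : Type} [Field k] [CharZero k] [Field F] [Algebra k F] [Fintype σ]
    (X : σ → F) (hrel : HRel k X) (E : Derivation k F F) (hE : ∀ s, E (X s) = X s) (t : ℕ)
    (S : Subalgebra k F) (hS : S ≤ PA k X) : Gr S E t ≤ HX k X t := by
  have hF : CharZero F := charZero_of_injective_algebraMap (algebraMap k F).injective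
  intro a ha
  have h1 := hS ha.1
  change _ ∈ Algebra.adjoin k (Set.range X) at h1
  rw [Algebra.adjoin_range_eq_range_aeval] at h1
  obtain ⟨p, hp⟩ := h1
  have hp' : aeval X p = a := hp
  have hsum : a = ∑ d ∈ Finset.range (p.totalDegree + 1), aeval X (homogeneousComponent d p) := by
    rw [← hp', ← map_sum, sum_homogeneousComponent]
  have hEp : aeval X (∑ d ∈ Finset.range (p.totalDegree + 1),
      C ((d : k) - t) * homogeneousComponent d p) = 0 := by
    have h2 := ha.2
    unfold Hm at h2
    rw [map_sum]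
    have h3 : ∀ d ∈ Finset.range (p.totalDegree + 1),
        aeval X (C ((d : k) - t) * homogeneousComponent d p) =
        E (aeval X (homogeneousComponent d p)) - (t : F) * aeval X (homogeneousComponent d p) := by
      intro d _
      have h4 := hm_homog' X E hE _ d (homogeneousComponent_isHomogeneous d p)
      unfold Hm at h4
      rw [h4, map_mul, algHom_C, map_sub, map_natCast, map_natCast]
      push_cast
      ring
    rw [Finset.sum_congr rfl h3, Finset.sum_sub_distrib, ← Finset.mul_sum, ← map_sum E, ← hsum,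
      h2]
    push_cast
    ring
  have hcomp : ∀ d, d ≠ t → aeval X (homogeneousComponent d p) = 0 := by
    intro d hd
    have h2 := hrel _ hEp d
    have h3 : homogeneousComponent d (∑ d ∈ Finset.range (p.totalDegree + 1),
        C ((d : k) - t) * homogeneousComponent d p) = C ((d : k) - t) * homogeneousComponent d p := by
      rw [map_sum]
      by_cases hdr : d ∈ Finset.range (p.totalDegree + 1)
      · rw [Finset.sum_eq_single d]
        · rw [homogeneousComponent_C_mul, homogeneousComponent_of_mem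
            (homogeneousComponent_mem d p), if_pos rfl]
        · intro e _ he
          rw [homogeneousComponent_C_mul, homogeneousComponent_of_mem
            (homogeneousComponent_mem e p), if_neg he.symm, mul_zero]
        · intro h
          exact absurd hdr h
      · rw [homogeneousComponent_eq_zero d p (by
          rw [Finset.mem_range, not_lt] at hdr
          omega), mul_zero]
        refine Finset.sum_eq_zero fun e he => ?_
        have hne : d ≠ e := fun h => hdr (h ▸ he)
        rw [homogeneousComponent_C_mul, homogeneousComponent_of_mem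
            (homogeneousComponent_mem e p), if_neg hne, mul_zero]
    rw [h3, map_mul, algHom_C, mul_eq_zero] at h2
    rcases h2 with h2 | h2
    · exfalso
      rw [map_eq_zero, sub_eq_zero] at h2
      exact hd (Nat.cast_injective h2)
    · exact h2
  refine ⟨homogeneousComponent t p, homogeneousComponent_mem t p, ?_⟩
  change aeval X (homogeneousComponent t p) = a
  rw [hsum]
  by_cases htr : t ∈ Finset.range (p.totalDegree + 1)
  · rw [Finset.sum_eq_single t]
    · intro e _ he
      exact hcomp e he
    · intro h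
      exact absurd htr h
  · rw [homogeneousComponent_eq_zero t p (by
      rw [Finset.mem_range, not_lt] at htr
      omega), map_zero]
    symm
    refine Finset.sum_eq_zero fun e he => ?_
    exact hcomp e fun h => htr (h ▸ he)

/-- the numerical estimate -/
theorem num_deg (δ d c : ℕ) (h : ∀ t : ℕ, 2 * (∑ i ∈ Finset.range δ,
    if i ≤ t then (t - i + 2).choose 2 else 0) ≤ d * t ^ 2 + c * (t + 1)) : δ ≤ d := by
  by_contra hlt
  have hlt' : d + 1 ≤ δ := by omega
  have h1 : ∀ t : ℕ, δ ≤ t → δ * (t - δ) ^ 2 ≤ d * t ^ 2 + c * (t + 1) := by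
    intro t ht
    refine le_trans ?_ (h t)
    rw [Finset.mul_sum]
    have h2 : ∀ i ∈ Finset.range δ, (t - δ) ^ 2 ≤
        2 * (if i ≤ t then (t - i + 2).choose 2 else 0) := by
      intro i hi
      rw [Finset.mem_range] at hi
      rw [if_pos (by omega)]
      have h3 := Nat.triangle_succ (t - i + 1)
      have h4 : (t - i + 2).choose 2 * 2 = (t - i + 2) * (t - i + 1) := by
        rw [Nat.choose_two_right, Nat.div_mul_cancel]
        · rfl
        · exact (Nat.even_mul_pred_self _).two_dvd
      have h5 : t - δ ≤ t - i := by omega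
      nlinarith
    have h3 := Finset.sum_le_sum h2
    rw [Finset.sum_const, Finset.card_range, smul_eq_mul] at h3
    exact h3
  obtain ⟨N, hN⟩ : ∃ N, N = 2 * δ * δ + 2 * c + 1 := ⟨_, rfl⟩
  have h2 := h1 N (by nlinarith)
  have h3 : (d + 1) * (N - δ) ^ 2 ≤ d * N ^ 2 + c * (N + 1) := by nlinarith
  have h4 : δ ≤ N := by nlinarith
  obtain ⟨y, hy⟩ := Nat.exists_eq_add_of_le h4
  have h5 : N - δ = y := by omega
  rw [h5] at h3
  have h6 : (d : ℤ) + 1 ≤ δ := by exact_mod_cast hlt'
  have h7 : ((d : ℤ) + 1) * (N - δ) ^ 2 ≤ d * N ^ 2 + c * (N + 1) := by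
    have h8 : (y : ℤ) = N - δ := by
      have : (N : ℤ) = δ + y := by exact_mod_cast hy
      linarith
    rw [← h8]
    exact_mod_cast h3
  have h8 : (N : ℤ) = 2 * δ * δ + 2 * c + 1 := by exact_mod_cast hN
  have h9 : (0 : ℤ) ≤ c := by positivity
  have h10 : (0 : ℤ) ≤ d := by positivity
  have a1 : ((d : ℤ) + 1) * δ ≤ δ * δ := by nlinarith
  have a2 : (1 : ℤ) ≤ N := by nlinarith
  have a3 : (N : ℤ) * N ≤ 2 * (((d : ℤ) + 1) * δ) * N + c * N + c := by nlinarith
  have a4 : 2 * (((d : ℤ) + 1) * δ) * N ≤ 2 * (δ * δ) * N := by nlinarith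
  have a5 : (c : ℤ) ≤ c * N := by nlinarith
  have a6 : (N : ℤ) * N = 2 * (δ * δ) * N + 2 * (c * N) + N := by
    nth_rewrite 1 [h8]
    ring
  linarith

theorem degle {k F σ : Type} [Field k] [CharZero k] [Field F] [Algebra k F] [Fintype σ]
    (X : σ → F) (hX : Cone k X) (d : ℕ) (hd : DegLe k X d) :
    ∃ δ : ℕ, δ ≤ d ∧ ∃ (u : Fin 3 → F) (θ : F) (dd : Fin 3 → Derivation k F F)
      (J : MvPolynomial (Fin 3) k),
      Sfc u dd δ (3 * (δ * (δ - 1))) (3 * (δ * (δ - 1)) + δ + 2) J ∧ Prj X u θ dd J ∧
      FiniteDimensional (kF k u) F := by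
  obtain ⟨u, θ0, hind, hul, -, hXi, hfin, -⟩ := A.nrm k F σ X hX
  obtain ⟨θ, dd, J, hS, hP⟩ := sfcu X hX u hind hul hXi hfin _ rfl
  refine ⟨_, ?_, u, θ, dd, J, hS, hP, hfin⟩
  obtain ⟨c, hc⟩ := hd
  refine num_deg _ d c fun t => ?_
  refine le_trans ?_ (hc t)
  refine Nat.mul_le_mul_left 2 ?_
  have hti : Itg k u θ := span_ind (p := fun a => Itg k u a) (Bb k u).zero_mem hXi
    (fun a b ha hb => (Bb k u).add_mem ha hb) (fun c a ha => (Bb k u).smul_mem ha c) hP.tlin
  have hte : eu u dd θ = θ := span_ind (p := fun a => eu u dd a = a) (map_zero _) hP.Xeu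
    (fun a b ha hb => by rw [map_add, ha, hb]) (fun c a ha => by rw [Derivation.map_smul, ha])
    hP.tlin
  have h1 := (A.dmb k F u θ (eu u dd) hind hfin hP.gen hti (eu_u u dd hS.du) hte).2 t
  rw [← h1.2]
  have hPBX : PB k u θ ≤ PA k X := by
    refine Algebra.adjoin_le ?_
    have hsp : ∀ b ∈ Submodule.span k (Set.range X), b ∈ PA k X := by
      intro b hb
      have h1 : Submodule.span k (Set.range X) ≤ (PA k X).toSubmodule :=
        Submodule.span_le.2 Algebra.subset_adjoin
      exact h1 hb
    rintro b (rfl | ⟨l, rfl⟩)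
    · exact hsp _ hP.tlin
    · exact hsp _ (hul l)
  have h2 := gr_le X hX.hmg (eu u dd) hP.Xeu t (PB k u θ) hPBX
  have h3 : Module.Finite k (homogeneousSubmodule σ k t) := hfin_hs k σ t
  have h4 : Module.Finite k (HX k X t) := by
    unfold HX
    infer_instance
  exact Submodule.finrank_mono h2

/-- the condition for the ideal -/
theorem degI {k σ : Type} [Field k] (I : Ideal (MvPolynomial σ k)) [I.IsPrime] (d : ℕ)
    (h : DegI I d) : DegLe k (fun s : σ => algebraMap (MvPolynomial σ k ⧸ I)
      (FractionRing (MvPolynomial σ k ⧸ I)) (Ideal.Quotient.mk I (X s))) d := by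
  obtain ⟨c, hc⟩ := h
  refine ⟨c, fun t => ?_⟩
  refine le_trans (Nat.mul_le_mul_left 2 (le_of_eq ?_)) (hc t)
  obtain ⟨α, hα⟩ : ∃ α : (MvPolynomial σ k ⧸ I) →ₗ[k] FractionRing (MvPolynomial σ k ⧸ I),
      α = (IsScalarTower.toAlgHom k (MvPolynomial σ k ⧸ I)
        (FractionRing (MvPolynomial σ k ⧸ I))).toLinearMap := ⟨_, rfl⟩
  have hinj : Function.Injective α := by
    rw [hα]
    exact IsFractionRing.injective (MvPolynomial σ k ⧸ I) (FractionRing (MvPolynomial σ k ⧸ I))
  have h1 : HX k (fun s : σ => algebraMap (MvPolynomial σ k ⧸ I)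
      (FractionRing (MvPolynomial σ k ⧸ I)) (Ideal.Quotient.mk I (X s))) t =
      ((homogeneousSubmodule σ k t).map (Ideal.Quotient.mkₐ k I).toLinearMap).map α := by
    rw [← Submodule.map_comp]
    unfold HX
    congr 1
    have h2 : (aeval (fun s : σ => algebraMap (MvPolynomial σ k ⧸ I)
      (FractionRing (MvPolynomial σ k ⧸ I)) (Ideal.Quotient.mk I (X s))) :
        MvPolynomial σ k →ₐ[k] FractionRing (MvPolynomial σ k ⧸ I)) =
        (IsScalarTower.toAlgHom k (MvPolynomial σ k ⧸ I)
        (FractionRing (MvPolynomial σ k ⧸ I))).comp (Ideal.Quotient.mkₐ k I) := by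
      refine MvPolynomial.algHom_ext fun s => ?_
      rw [aeval_X]
      rfl
    rw [h2, hα]
    rfl
  rw [h1]
  exact (LinearEquiv.finrank_eq (Submodule.equivMapOfInjective α hinj _)).symm

end Pool.Agent.H17.SFG
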