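import Pool.Agent.H17.SFG.COR
import Pool.Agent.H17.SFG.All
import Pool.Agent.H38.SF.OSF
import Pool.Agent.H13.SF.TAY
import Pool.Agent.H19.SFC.TAK
import Pool.Agent.H62.HIL.S2
import Pool.Agent.H68.SF.APX
import Pool.Agent.H33.SF.REM
import Pool.Agent.H56.SF.EPS
import Pool.Agent.H37.SF.OSN
import Pool.Agent.H37.SF.FRE
import Pool.Agent.H33.SF.CRM
import Pool.Agent.H68.SF.MXI
import Pool.Agent.H48.SFG.ITA

/-!
# MP_70ba79_ag, THEOREM S (surfaces): irreducible smooth curves are prime
-/

set_option autoImplicit false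

namespace Pool.Agent.H17.SFG

open MvPolynomial SC Pool.Agent.H27.LV
open Pool.Agent.H92.SF Pool.Agent.H3.SF Pool.Agent.H17.SD

theorem i_OSF : Pool.Agent.H84.SF.T_OSF :=
  Pool.Agent.H38.SF.pf_OSF Pool.Agent.H56.SF.pf_EPS Pool.Agent.H37.SF.pf_OSN
    Pool.Agent.H37.SF.pf_FRE Pool.Agent.H33.SF.pf_CRM Pool.Agent.H68.SF.pf_MXI

theorem i_TAK : Pool.Agent.H84.SF.T_TAK :=
  Pool.Agent.H19.SFC.pf_TAK Pool.Agent.H68.SF.pf_APX Pool.Agent.H33.SF.pf_REM

section Alg

variable {k F σ : Type} [Field k] [Field F] [Algebra k F]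

/-- the ideal of the curve -/
noncomputable def Irp (X : σ → F) (G : MvPolynomial σ k) : Ideal (MvPolynomial σ k) :=
  (RingHom.ker (aeval X : MvPolynomial σ k →ₐ[k] F) ⊔ Ideal.span {G}).radical

theorem mem_irp (X : σ → F) (G f : MvPolynomial σ k) :
    f ∈ Irp X G ↔ ∃ (n : ℕ) (q : MvPolynomial σ k), aeval X (f ^ n) = aeval X (q * G) := by
  unfold Irp
  rw [Ideal.mem_radical_iff]
  refine exists_congr fun n => ?_
  rw [Submodule.mem_sup]
  constructor
  · rintro ⟨y, hy, z, hz, e⟩
    obtain ⟨q, rfl⟩ := Ideal.mem_span_singleton'.1 hz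
    refine ⟨q, ?_⟩
    rw [← e, map_add, (RingHom.mem_ker).1 hy, zero_add]
  · rintro ⟨q, hq⟩
    refine ⟨f ^ n - q * G, ?_, q * G, Ideal.mem_span_singleton'.2 ⟨q, rfl⟩, by ring⟩
    rw [RingHom.mem_ker, map_sub, hq, sub_self]

theorem hc_mul (q G : MvPolynomial σ k) {m : ℕ} (hG : G.IsHomogeneous m) (r : ℕ) :
    homogeneousComponent (r + m) (q * G) = homogeneousComponent r q * G := by
  have e : q * G = ∑ i ∈ Finset.range (q.totalDegree + 1), homogeneousComponent i q * G := by
    rw [← Finset.sum_mul, sum_homogeneousComponent]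
  rw [e, map_sum]
  by_cases hr : r ∈ Finset.range (q.totalDegree + 1)
  · rw [Finset.sum_eq_single_of_mem r hr, homogeneousComponent_of_mem (n := r + m)
      ((homogeneousComponent_isHomogeneous r q).mul hG), if_pos rfl]
    · intro i _ hi
      rw [homogeneousComponent_of_mem (n := i + m)
        ((homogeneousComponent_isHomogeneous i q).mul hG), if_neg (by omega)]
  · rw [Finset.sum_eq_zero, homogeneousComponent_eq_zero, zero_mul]
    · simpa using hr
    · intro i hi
      rw [homogeneousComponent_of_mem (n := i + m)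
        ((homogeneousComponent_isHomogeneous i q).mul hG), if_neg]
      rintro h
      exact hr ((by omega : r = i) ▸ hi)

theorem hc_mul' (q G : MvPolynomial σ k) {m : ℕ} (hG : G.IsHomogeneous m) (d : ℕ) (hd : d < m) :
    homogeneousComponent d (q * G) = 0 := by
  have e : q * G = ∑ i ∈ Finset.range (q.totalDegree + 1), homogeneousComponent i q * G := by
    rw [← Finset.sum_mul, sum_homogeneousComponent]
  rw [e, map_sum]
  refine Finset.sum_eq_zero fun i hi => ?_
  rw [homogeneousComponent_of_mem (n := i + m)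
    ((homogeneousComponent_isHomogeneous i q).mul hG), if_neg (by omega)]

/-- forms in the ideal of the curve -/
theorem irp_form (X : σ → F) (hX : HRel k X) (G f : MvPolynomial σ k) {m e : ℕ}
    (hG : G.IsHomogeneous m) (hf : f.IsHomogeneous e) (h : f ∈ Irp X G) :
    aeval X f = 0 ∨ ∃ (n r : ℕ) (q : MvPolynomial σ k), q.IsHomogeneous r ∧ r + m = n * e ∧
      aeval X (f ^ n) = aeval X (q * G) := by
  obtain ⟨n, q, hq⟩ := (mem_irp X G f).1 h
  have h1 : aeval X (f ^ n - q * G) = 0 := by rw [map_sub, hq, sub_self]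
  have h2 := hX _ h1 (n * e)
  rw [map_sub, homogeneousComponent_of_mem (n := e * n) (hf.pow n), if_pos (mul_comm _ _)] at h2
  by_cases hm : n * e < m
  · left
    rw [hc_mul' q G hG _ hm, sub_zero, map_pow] at h2
    exact (pow_eq_zero_iff (fun h0 => by rw [h0, pow_zero] at h2; exact one_ne_zero h2)).1 h2
  · right
    refine ⟨n, n * e - m, homogeneousComponent (n * e - m) q,
      homogeneousComponent_isHomogeneous _ _, by omega, ?_⟩
    have h3 := hc_mul q G hG (n * e - m)
    rw [show n * e - m + m = n * e by omega] at h3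
    rw [h3, map_sub, sub_eq_zero] at h2
    exact h2

/-- the ideal of the curve is homogeneous -/
theorem irp_hom (X : σ → F) (hX : HRel k X) (G : MvPolynomial σ k) {m : ℕ}
    (hG : G.IsHomogeneous m) (f : MvPolynomial σ k) (h : f ∈ Irp X G) (d : ℕ) :
    homogeneousComponent d f ∈ Irp X G := by
  let := MvPolynomial.gradedAlgebra (σ := σ) (R := k)
  have h1 : (RingHom.ker (aeval X : MvPolynomial σ k →ₐ[k] F)).IsHomogeneous
      (homogeneousSubmodule σ k) := by
    intro i r hr
    rw [RingHom.mem_ker]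
    have h2 := hX r ((RingHom.mem_ker).1 hr) i
    rw [← decomposition.decompose'_apply] at h2
    exact h2
  have h2 : (Ideal.span {G} : Ideal (MvPolynomial σ k)).IsHomogeneous
      (homogeneousSubmodule σ k) := by
    refine Ideal.homogeneous_span _ _ fun x hx => ?_
    rw [Set.mem_singleton_iff] at hx
    exact ⟨m, hx ▸ hG⟩
  have h3 : (Irp X G).IsHomogeneous (homogeneousSubmodule σ k) := (h1.sup h2).radical
  exact homogeneousComponent_mem_of_mem h3 h d

theorem dd_li (X : σ → F) [Fintype σ] (u : Fin 3 → F) (dd : Fin 3 → Derivation k F F)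
    (hu : ∀ l, u l ∈ Submodule.span k (Set.range X))
    (hdu : ∀ l j, dd l (u j) = if l = j then 1 else 0) :
    LinearIndependent F fun l => fun i => dd l (X i) := by
  rw [Fintype.linearIndependent_iff]
  intro g hg j
  have h1 : ∀ a ∈ Submodule.span k (Set.range X), ∑ l, g l * dd l a = 0 := by
    intro a ha
    induction ha using Submodule.span_induction with
    | mem x hx =>
      obtain ⟨i, rfl⟩ := hx
      have h2 := congrFun hg i
      simpa [Finset.sum_apply] using h2
    | zero => simp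
    | add x y _ _ hx hy =>
      simp only [map_add, mul_add, Finset.sum_add_distrib]
      rw [hx, hy, add_zero]
    | smul c x _ hx =>
      simp only [Derivation.map_smul, mul_smul_comm]
      rw [← Finset.smul_sum, hx, smul_zero]
  have h2 := h1 (u j) (hu j)
  simpa [hdu] using h2

/-- forms in the ideal of the curve are locally divisible by `G` -/
theorem ldv [CharZero k] [Fintype σ] (X : σ → F) (hX : HRel k X)
    (dd : Fin 3 → Derivation k F F) (hli : LinearIndependent F fun l => fun i => dd l (X i))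
    (G f : MvPolynomial σ k) {m e : ℕ} (hm : 1 ≤ m) (hG : G.IsHomogeneous m)
    (hf : f.IsHomogeneous e) (h : f ∈ Irp X G) (s : σ → k) (hs : s ≠ 0)
    (hsY : ∀ p : MvPolynomial σ k, aeval X p = 0 → eval s p = 0) (hsG : eval s G = 0)
    (htn : Module.finrank k (Pool.Agent.H84.SF.Tng X s G) ≤ 2) :
    ∃ p q : MvPolynomial σ k, eval s p ≠ 0 ∧ aeval X (p * f) = aeval X (q * G) := by
  classical
  rcases irp_form X hX G f hG hf h with h0 | ⟨n, r, q, hq, hr, hn⟩
  · exact ⟨1, 0, by simp, by rw [one_mul, zero_mul, h0, map_zero]⟩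
  obtain ⟨hN, L0, L1, cX, cG, ε, X1, Gs, dX, dG, hL0, hL1, hv0, hv1, -, hε, hX1, hGs, hF, -, -⟩ :=
    i_OSF k F σ X s dd G m ⟨fun f d hf => hX f hf d, hsY⟩ hs hli hm hG hsG htn
  obtain ⟨c, hc, hcG, -⟩ := Pool.Agent.H13.SF.pf_TAY k (Pool.Agent.H84.SF.Os X s) ε X1 Gs dX dG hF
  have hker := i_TAK k (Pool.Agent.H84.SF.Os X s) ε X1 Gs dX dG hF c hc hcG
  have hl : aeval X L0 ≠ 0 := fun h => hv0 (hsY _ h)
  set l : F := aeval X L0 with hldef
  have hz : aeval X f / l ^ e ∈ Pool.Agent.H84.SF.Os X s := by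
    refine ⟨e, f, L0 ^ e, ⟨hf, by simpa using hL0.pow e, ?_⟩, ?_⟩
    · rw [map_pow, ← hldef, div_mul_cancel₀ _ (pow_ne_zero _ hl)]
    · rw [map_pow]
      exact pow_ne_zero _ hv0
  have hw : aeval X q / l ^ r ∈ Pool.Agent.H84.SF.Os X s := by
    refine ⟨r, q, L0 ^ r, ⟨hq, by simpa using hL0.pow r, ?_⟩, ?_⟩
    · rw [map_pow, ← hldef, div_mul_cancel₀ _ (pow_ne_zero _ hl)]
    · rw [map_pow]
      exact pow_ne_zero _ hv0
  have hzn : (⟨_, hz⟩ : Pool.Agent.H84.SF.Os X s) ^ n = ⟨_, hw⟩ * Gs := by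
    apply Subtype.ext
    have hGs' : (Gs : F) = aeval X G / l ^ m := by
      rw [eq_div_iff (pow_ne_zero _ hl)]
      exact hGs
    change (aeval X f / l ^ e) ^ n = aeval X q / l ^ r * (Gs : F)
    rw [hGs', div_pow, ← map_pow, hn, map_mul, div_mul_div_comm, ← pow_mul, ← pow_add, hr,
      mul_comm e n]
  have hcz : c ⟨_, hz⟩ = 0 := by
    have h1 := congrArg c hzn
    rw [map_pow, map_mul, hcG, mul_zero] at h1
    refine (pow_eq_zero_iff (fun h0 => ?_)).1 h1
    rw [h0, pow_zero] at h1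
    exact one_ne_zero h1
  obtain ⟨y, hy⟩ := hker _ hcz
  obtain ⟨d, a, b, ⟨ha, hb, hab⟩, hbs⟩ := y.2
  refine ⟨b * L0 ^ m, a * L0 ^ e, ?_, ?_⟩
  · rw [map_mul, map_pow]
    exact mul_ne_zero hbs (pow_ne_zero _ hv0)
  · have h1 : aeval X f / l ^ e = (Gs : F) * (y : F) := congrArg Subtype.val hy
    rw [div_eq_iff (pow_ne_zero _ hl)] at h1
    rw [map_mul, map_mul, map_mul, map_mul, map_pow, map_pow, ← hldef, h1, ← hab, ← hGs]
    ring

theorem smo_tng [Fintype σ] (X : σ → F) (G : MvPolynomial σ k) (h : Smo X G) (s : σ → k)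
    (hs0 : s ≠ 0) (hs : ∀ p : MvPolynomial σ k, aeval X p = 0 → eval s p = 0)
    (hsG : eval s G = 0) : Module.finrank k (Pool.Agent.H84.SF.Tng X s G) ≤ 2 := by
  by_contra hlt
  rw [not_le] at hlt
  have hfd : FiniteDimensional k (Pool.Agent.H84.SF.Tng X s G) := inferInstance
  obtain ⟨b⟩ : Nonempty (Module.Basis (Fin (Module.finrank k (Pool.Agent.H84.SF.Tng X s G))) k
    (Pool.Agent.H84.SF.Tng X s G)) := ⟨Module.finBasis k _⟩
  have hb := b.linearIndependent
  set y : Fin 3 → σ → k := fun i => (b (Fin.castLE hlt i) : σ → k) with hy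
  have hyi : LinearIndependent k y := by
    have h1 : LinearIndependent k (fun i : Fin 3 => b (Fin.castLE hlt i)) :=
      hb.comp _ (Fin.castLE_injective hlt)
    exact h1.map' (Pool.Agent.H84.SF.Tng X s G).subtype (Submodule.ker_subtype _)
  refine h s hs0 hs hsG y ?_ hyi
  intro i f hf
  have hmem := (b (Fin.castLE hlt i)).2
  rcases hf with hf | rfl
  · exact hmem.1 f hf
  · exact hmem.2

theorem itg_iff (u : Fin 3 → F) (a : F) : Itg k u a ↔ Pool.Agent.H62.HIL.Itg k u a :=
  Pool.Agent.H48.SFG.pf_ITA k F (Fin 3) u a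

theorem itg_PA [Fintype σ] (X : σ → F) (u : Fin 3 → F) (hXi : ∀ s, Itg k u (X s)) {a : F}
    (ha : a ∈ PA k X) : Itg k u a := by
  have h1 : PA k X ≤ Bb k u := by
    refine Algebra.adjoin_le ?_
    rintro b ⟨s, rfl⟩
    exact hXi s
  exact h1 ha

theorem PA_form (X : σ → F) (p : MvPolynomial σ k) : aeval X p ∈ PA k X := by
  change aeval X p ∈ Algebra.adjoin k (Set.range X)
  rw [Algebra.adjoin_range_eq_range_aeval]
  exact ⟨p, rfl⟩

/-- forms in the ideal of the curve are divisible by `G` -/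
theorem dvd_form [IsAlgClosed k] [CharZero k] [Fintype σ] (X : σ → F) (hX : HRel k X)
    (u : Fin 3 → F) (dd : Fin 3 → Derivation k F F) (hind : AlgebraicIndependent k u)
    (hu : ∀ l, u l ∈ Submodule.span k (Set.range X))
    (hdu : ∀ l j, dd l (u j) = if l = j then 1 else 0) (hXi : ∀ s, Itg k u (X s))
    (G f : MvPolynomial σ k) {m e : ℕ} (hm : 1 ≤ m) (hG : G.IsHomogeneous m)
    (hG0 : aeval X G ≠ 0) (hsm : Smo X G)
    (hf : f.IsHomogeneous e) (h : f ∈ Irp X G) : Itg k u (aeval X f / aeval X G) := by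
  classical
  have hli := dd_li X u dd hu hdu
  let b : Ideal (MvPolynomial σ k) :=
    { carrier := {p | ∃ q, aeval X (p * f) = aeval X (q * G)}
      add_mem' := by
        rintro p p' ⟨q, hq⟩ ⟨q', hq'⟩
        exact ⟨q + q', by rw [add_mul, map_add, hq, hq', add_mul, map_add]⟩
      zero_mem' := ⟨0, by rw [zero_mul, zero_mul]⟩
      smul_mem' := by
        rintro c p ⟨q, hq⟩
        exact ⟨c * q, by rw [smul_eq_mul, mul_assoc, map_mul, hq, mul_assoc, map_mul, map_mul,
          map_mul]⟩ }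
  have hzero : ∀ s ∈ zeroLocus k b, s = 0 := by
    intro s hs
    rw [mem_zeroLocus_iff] at hs
    have hs' : ∀ p ∈ b, eval s p = 0 := by
      intro p hp
      rw [← coe_aeval_eq_eval]
      exact hs p hp
    by_contra hs0
    have hsY : ∀ p : MvPolynomial σ k, aeval X p = 0 → eval s p = 0 := fun p hp =>
      hs' p ⟨0, by rw [map_mul, hp, zero_mul, zero_mul, map_zero]⟩
    have hsG : eval s G = 0 := hs' G ⟨f, by rw [mul_comm]⟩
    have htn := smo_tng X G hsm s hs0 hsY hsG
    obtain ⟨p, q, hp, hpq⟩ := ldv X hX dd hli G f hm hG hf h s hs0 hsY hsG htn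
    exact hp (hs' p ⟨q, hpq⟩)
  have hrad : ∀ l, ∃ N : ℕ, Pool.Agent.H62.HIL.Itg k u (u l ^ N * (aeval X f / aeval X G)) := by
    intro l
    obtain ⟨U, hU, hUX⟩ := span_form X (hu l)
    have h1 : U ∈ b.radical := by
      rw [← vanishingIdeal_zeroLocus_eq_radical (K := k), mem_vanishingIdeal_iff]
      intro s hs
      rw [hzero s hs]
      have h2 : coeff 0 U = 0 := hU.coeff_eq_zero (by simp)
      simpa [constantCoeff_eq] using h2
    obtain ⟨N, q, hq⟩ := h1
    refine ⟨N, ?_⟩
    rw [← itg_iff]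
    have h3 : u l ^ N * (aeval X f / aeval X G) = aeval X q := by
      rw [map_mul, map_mul, map_pow, hUX] at hq
      rw [mul_div_assoc', hq, mul_div_cancel_right₀ _ hG0]
    rw [h3]
    exact itg_PA X u hXi (PA_form X q)
  obtain ⟨N0, h0⟩ := hrad 0
  obtain ⟨N1, h1⟩ := hrad 1
  rw [itg_iff]
  exact Pool.Agent.H62.HIL.s2 hind (i := 0) (j := 1) (by decide) N0 N1 h0 h1

/-- elements of the ideal of the curve are divisible by `G` -/
theorem dvd_all [IsAlgClosed k] [CharZero k] [Fintype σ] (X : σ → F) (hX : HRel k X)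
    (u : Fin 3 → F) (dd : Fin 3 → Derivation k F F) (hind : AlgebraicIndependent k u)
    (hu : ∀ l, u l ∈ Submodule.span k (Set.range X))
    (hdu : ∀ l j, dd l (u j) = if l = j then 1 else 0) (hXi : ∀ s, Itg k u (X s))
    (G f : MvPolynomial σ k) {m : ℕ} (hm : 1 ≤ m) (hG : G.IsHomogeneous m)
    (hG0 : aeval X G ≠ 0) (hsm : Smo X G)
    (h : f ∈ Irp X G) : Itg k u (aeval X f / aeval X G) := by
  have e : aeval X f / aeval X G = ∑ i ∈ Finset.range (f.totalDegree + 1),
      aeval X (homogeneousComponent i f) / aeval X G := by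
    rw [← Finset.sum_div, ← map_sum, sum_homogeneousComponent]
  rw [e]
  have h1 : ∀ i ∈ Finset.range (f.totalDegree + 1),
      aeval X (homogeneousComponent i f) / aeval X G ∈ Bb k u := fun i _ =>
    dvd_form X hX u dd hind hu hdu hXi G _ hm hG hG0 hsm (homogeneousComponent_isHomogeneous i f)
      (irp_hom X hX G hG f h i)
  exact (Bb k u).sum_mem h1

end Alg

/-- the curve is irreducible -/
def Irr {k F σ : Type} [Field k] [Field F] [Algebra k F] (X : σ → F) (G : MvPolynomial σ k) :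
    Prop :=
  (RingHom.ker (aeval X : MvPolynomial σ k →ₐ[k] F) ⊔ Ideal.span {G}).radical.IsPrime

/-- IRR: an irreducible smooth curve of degree greater than `j0` is prime -/
def T_IRR : Prop := ∀ (k F σ : Type) [Field k] [IsAlgClosed k] [CharZero k] [Field F] [Algebra k F]
  [Fintype σ] (X : σ → F) (u : Fin 3 → F) (θ : F) (dd : Fin 3 → Derivation k F F)
  (δ j0 c0 : ℕ) (J : MvPolynomial (Fin 3) k), Cone k X → Sfc u dd δ j0 c0 J → Prj X u θ dd J →
  ∀ (m : ℕ) (G : MvPolynomial σ k), j0 < m → G.IsHomogeneous m → aeval X G ≠ 0 → Smo X G →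
  Irr X G → ∀ a b : F, Itg k u a → Itg k u b → Itg k u (a * b / aeval X G) →
    Itg k u (a / aeval X G) ∨ Itg k u (b / aeval X G)

theorem pf_IRR : T_IRR := by
  intro k F σ _ _ _ _ _ _ X u θ dd δ j0 c0 J hC hS hP m G hjm hG hG0 hsm hirr a b ha hb hab
  have hm : 1 ≤ m := by omega
  have hprime : (Irp X G).IsPrime := hirr
  have hD := fun (f : MvPolynomial σ k) (h : f ∈ Irp X G) =>
    dvd_all X hC.hmg u dd hS.ind hP.ulin hS.du hP.Xint G f hm hG hG0 hsm h
  -- linear forms
  choose U hU hUX using fun l => span_form X (hP.ulin l)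
  have hUa : ∀ p : MvPolynomial (Fin 3) k, aeval X (aeval U p) = aeval u p := by
    intro p
    have h1 : (aeval X : MvPolynomial σ k →ₐ[k] F).comp (aeval U) = aeval u := by
      apply MvPolynomial.algHom_ext
      intro l
      simp [hUX]
    rw [← h1]
    rfl
  have hui : ∀ p : MvPolynomial (Fin 3) k, Itg k u (aeval u p) := by
    intro p
    rw [← hUa]
    exact itg_PA X u hP.Xint (PA_form X _)
  -- J is not zero on the curve
  have hJ : aeval U J ∉ Irp X G := by
    intro h
    have h1 := hD _ h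
    rw [hUa] at h1
    have hUJ : (aeval U J : MvPolynomial σ k).IsHomogeneous j0 := by
      have h2 := hS.Jh.aeval U (n := 1) hU
      rwa [one_mul] at h2
    have h2 : Hm k (eu u dd) j0 (aeval u J) := by
      rw [← hUa]
      exact hm_aeval X (eu u dd) hP.Xeu j0 _ hUJ
    have h3 : Hm k (eu u dd) m (aeval X G) := hm_aeval X (eu u dd) hP.Xeu m G hG
    have h4 : Hm k (eu u dd) ((j0 : ℤ) - m) (aeval u J / aeval X G) := by
      unfold Hm at h2 h3 ⊢
      have h5 : aeval u J = aeval u J / aeval X G * aeval X G := by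
        rw [div_mul_cancel₀ _ hG0]
      have h6 := congrArg (eu u dd) h5
      rw [Derivation.leibniz, h2, h3, smul_eq_mul, smul_eq_mul] at h6
      refine mul_left_cancel₀ hG0 ?_
      have h7 : aeval X G * (eu u dd) (aeval u J / aeval X G) = ((j0 : ℤ) : F) * aeval u J -
          aeval u J / aeval X G * (((m : ℤ) : F) * aeval X G) := by
        rw [h6]
        ring
      rw [h7]
      push_cast
      field_simp
    have h5 : aeval u J / aeval X G ∈ BB k u (eu u dd) ((j0 : ℤ) - m) := ⟨h1, h4⟩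
    rw [hS.neg _ (by omega), Submodule.mem_bot, div_eq_zero_iff] at h5
    rcases h5 with h5 | h5
    · exact hS.J0 ((injective_iff_map_eq_zero (aeval u : MvPolynomial (Fin 3) k →ₐ[k] F)).1
        hS.ind J h5)
    · exact hG0 h5
  -- an irreducible form which vanishes on the curve
  obtain ⟨N, hN0, hN⟩ : ∃ N : MvPolynomial (Fin 3) k, N ≠ 0 ∧ aeval U N ∈ Irp X G := by
    have hint : IsIntegral (PA k u) (aeval X G) :=
      (Pool.Agent.H48.SFG.pf_ITA k F (Fin 3) u _).1 (itg_PA X u hP.Xint (PA_form X G))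
    obtain ⟨P, hPm, hPx, hP0⟩ : ∃ P : Polynomial (PA k u), P.Monic ∧
        Polynomial.aeval (aeval X G) P = 0 ∧ P.coeff 0 ≠ 0 := by
      refine ⟨minpoly (PA k u) (aeval X G), minpoly.monic hint, minpoly.aeval _ _, fun h0 => ?_⟩
      set P := minpoly (PA k u) (aeval X G) with hPdef
      have h1 : P = P.divX * Polynomial.X := by
        conv_lhs => rw [← Polynomial.divX_mul_X_add P, h0, map_zero, add_zero]
      have h2 : P.divX.Monic := by
        have h3 : (P.divX * Polynomial.X).Monic := by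
          rw [← h1]
          exact minpoly.monic hint
        exact Polynomial.Monic.of_mul_monic_right Polynomial.monic_X h3
      have h3 : Polynomial.aeval (aeval X G) P.divX = 0 := by
        have h4 : Polynomial.aeval (aeval X G) P = 0 := minpoly.aeval _ _
        rw [h1, map_mul, Polynomial.aeval_X] at h4
        exact (mul_eq_zero.1 h4).resolve_right hG0
      have h4 := minpoly.min (PA k u) (aeval X G) h2 h3
      rw [← hPdef, Polynomial.degree_eq_natDegree (minpoly.monic hint).ne_zero,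
        Polynomial.degree_eq_natDegree h2.ne_zero] at h4
      have h5 : P.natDegree = P.divX.natDegree + 1 := by
        conv_lhs => rw [h1]
        rw [Polynomial.natDegree_mul_X h2.ne_zero]
      have h6 : P.natDegree ≤ P.divX.natDegree := by exact_mod_cast h4
      omega
    have hle : PA k u ≤ PA k X := by
      refine Algebra.adjoin_le ?_
      rintro b ⟨l, rfl⟩
      exact span_PA X (hP.ulin l)
    obtain ⟨N, hN⟩ : ∃ N : MvPolynomial (Fin 3) k, aeval u N = (P.coeff 0 : F) := by
      have h1 := (P.coeff 0).2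
      change _ ∈ Algebra.adjoin k (Set.range u) at h1
      rw [Algebra.adjoin_range_eq_range_aeval] at h1
      exact h1
    have hy : ∀ Q : Polynomial (PA k u), ∃ q : MvPolynomial σ k,
        aeval X q = Polynomial.aeval (aeval X G) Q := by
      intro Q
      have h1 : Polynomial.aeval (aeval X G) Q ∈ PA k X := by
        rw [Polynomial.aeval_eq_sum_range]
        refine Subalgebra.sum_mem _ fun i _ => ?_
        rw [Algebra.smul_def]
        exact (PA k X).mul_mem (hle (Q.coeff i).2) ((PA k X).pow_mem (PA_form X G) i)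
      change _ ∈ Algebra.adjoin k (Set.range X) at h1
      rw [Algebra.adjoin_range_eq_range_aeval] at h1
      exact h1
    obtain ⟨q, hq⟩ := hy P.divX
    refine ⟨N, ?_, ?_⟩
    · rintro rfl
      rw [map_zero] at hN
      exact hP0 (Subtype.ext hN.symm)
    · rw [mem_irp]
      refine ⟨1, -q, ?_⟩
      rw [pow_one, hUa, hN, map_mul, map_neg, hq]
      have h1 := hPx
      rw [← Polynomial.divX_mul_X_add P, map_add, map_mul, Polynomial.aeval_X,
        Polynomial.aeval_C] at h1
      have h2 : (algebraMap (PA k u) F) (P.coeff 0) = (P.coeff 0 : F) := rfl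
      rw [h2] at h1
      linear_combination h1
  obtain ⟨π, hπ, hπG⟩ : ∃ π : MvPolynomial (Fin 3) k, Irreducible π ∧ aeval U π ∈ Irp X G := by
    induction N using WfDvdMonoid.induction_on_irreducible with
    | zero => exact absurd rfl hN0
    | unit a ha =>
      exact absurd (Ideal.eq_top_of_isUnit_mem _ hN (ha.map (aeval U))) hprime.ne_top
    | mul a i ha hi ih =>
      rw [map_mul] at hN
      rcases hprime.mem_or_mem hN with h1 | h1
      · exact ⟨i, hi, h1⟩
      · exact ih ha h1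
  have hrel : IsRelPrime J π := by
    rw [isRelPrime_comm, hπ.isRelPrime_iff_not_dvd]
    rintro ⟨q, hq⟩
    apply hJ
    rw [hq, map_mul]
    exact (Irp X G).mul_mem_right _ hπG
  have key : ∀ a : F, Itg k u a → ∀ f : MvPolynomial σ k, aeval X f = aeval u J * a →
      f ∈ Irp X G → Itg k u (a / aeval X G) := by
    intro a ha f hf hfG
    rw [itg_iff]
    refine Pool.Agent.H62.HIL.itg_of_isRelPrime hS.ind hS.J0 hπ.ne_zero hrel ?_ ?_
    · rw [← itg_iff, mul_div_assoc', ← hf]
      exact hD f hfG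
    · rw [← itg_iff, mul_div_assoc', mul_div_right_comm]
      refine (Bb k u).mul_mem ?_ ha
      have h1 := hD _ hπG
      rw [hUa] at h1
      exact h1
  have hPA : ∀ a : F, Itg k u a → ∃ f : MvPolynomial σ k, aeval X f = aeval u J * a := by
    intro a ha
    have h1 : aeval u J * a ∈ PA k X := PB_le X u θ hP.ulin hP.tlin (hP.JI a ha)
    change _ ∈ Algebra.adjoin k (Set.range X) at h1
    rw [Algebra.adjoin_range_eq_range_aeval] at h1
    exact h1
  obtain ⟨f, hf⟩ := hPA a ha
  obtain ⟨g, hg⟩ := hPA b hb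
  obtain ⟨h, hh⟩ := hPA _ hab
  have hfg : f * g ∈ Irp X G := by
    rw [mem_irp]
    refine ⟨1, aeval U J * h, ?_⟩
    rw [pow_one, map_mul, map_mul, map_mul, hf, hg, hh, hUa]
    field_simp
  rcases hprime.mem_or_mem hfg with h1 | h1
  · exact Or.inl (key a ha f hf h1)
  · exact Or.inr (key b hb g hg h1)

/-- CRI: the data of an irreducible smooth curve -/
def T_CRI : Prop := ∀ (k F σ : Type) [Field k] [IsAlgClosed k] [CharZero k] [Field F] [Algebra k F]
  [Fintype σ] (X : σ → F) (u : Fin 3 → F) (θ : F) (dd : Fin 3 → Derivation k F F)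
  (δ j0 c0 : ℕ) (J : MvPolynomial (Fin 3) k), Cone k X → Sfc u dd δ j0 c0 J → Prj X u θ dd J →
  ∀ (m : ℕ) (G : MvPolynomial σ k), j0 < m → G.IsHomogeneous m → aeval X G ≠ 0 → Smo X G →
  Irr X G → Crd u dd m (aeval X G)

theorem pf_CRI : T_CRI := by
  intro k F σ _ _ _ _ _ _ X u θ dd δ j0 c0 J hC hS hP m G hjm hG hG0 hsm hirr
  obtain ⟨c, hc⟩ := A.crh k F σ X u dd m G hC.trd hS.ind hP.ulin hP.Xint hS.du
    (fun l j a => hS.comm l j a) hP.Xeu (by omega) hG hsm
  refine ⟨hG0, itg_PA X u hP.Xint (PA_form X G), hm_aeval X (eu u dd) hP.Xeu m G hG,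
    ⟨c, fun i => ?_⟩, pf_IRR k F σ X u θ dd δ j0 c0 J hC hS hP m G hjm hG hG0 hsm hirr⟩
  obtain ⟨e, he, h2⟩ := hc i
  exact ⟨e, fun l => ⟨(he l).2.1, (he l).2.2⟩, h2⟩

end Pool.Agent.H17.SFG
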