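import Pool.Agent.H17.SFG.All
import Pool.Agent.H17.SFG.COR

/-!
# MP_70ba79_ag, THEOREM S (surfaces), chapter 1: uniform version, the data depend on the degree
-/

set_option autoImplicit false

namespace Pool.Agent.H17.SFG

open MvPolynomial SC Pool.Agent.H27.LV
open Pool.Agent.H92.SF Pool.Agent.H3.SF Pool.Agent.H17.SD
open Pool.Agent.H19.SFG (hm_mul hm_pow hm_sum hm_nat PB_le_Bb itg_u mem_PA)

/-- a multiple of `qd` in `k[u]`, of bounded degree -/
theorem qdhu {k F : Type} [Field k] [CharZero k] [Field F] [Algebra k F] (u : Fin 3 → F)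
    (θ : F) (E : Derivation k F F) (hu : AlgebraicIndependent k u)
    (hfin : FiniteDimensional (kF k u) F)
    (hint : Itg k u θ) (hE : ∀ l, E (u l) = u l) (hEθ : E θ = θ) (hq0 : qd k u θ ≠ 0)
    (hqB : qd k u θ ∈ PB k u θ) : ∃ (P : MvPolynomial (Fin 3) k) (e : ℕ), P ≠ 0 ∧
    P.IsHomogeneous e ∧ e ≤ Module.finrank (kF k u) F * (Module.finrank (kF k u) F - 1) ∧
    ∃ b ∈ PB k u θ, aeval u P = qd k u θ * b := by
  have h2 := A.mpc
  have h3 := A.mph
  have h4 := A.hmp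
  obtain ⟨p, hp⟩ : ∃ p, p = minpoly (kF k u) θ := ⟨_, rfl⟩
  have hii : IsIntegral (kF k u) θ := IsIntegral.of_finite (kF k u) θ
  have hn1 : 0 < p.natDegree := by
    rw [hp]
    exact minpoly.natDegree_pos hii
  have hθm : Hm k E 1 θ := by
    unfold Hm
    rw [hEθ]
    push_cast
    rw [one_mul]
  have hqm : Hm k E ((p.natDegree : ℤ) - 1) (qd k u θ) := by
    unfold qd
    rw [← hp, Polynomial.aeval_eq_sum_range]
    refine hm_sum _ _ fun i _ => ?_
    rw [Polynomial.coeff_derivative]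
    have h5 := h3 k F (Fin 3) u E hE θ 1 hii.isAlgebraic hθm (i + 1)
    rw [← hp] at h5
    have h6 := hm_mul (hm_nat h5 (i + 1)) (hm_pow hθm i)
    have e1 : ((p.natDegree : ℤ) - ((i + 1 : ℕ) : ℤ)) * 1 + (i : ℤ) = (p.natDegree : ℤ) - 1 := by
      push_cast
      ring
    rw [e1] at h6
    have e2 : (p.coeff (i + 1) * ((i : kF k u) + 1)) • θ ^ i =
        (((i + 1 : ℕ) : F) * (p.coeff (i + 1) : F)) * θ ^ i := by
      rw [Algebra.smul_def, map_mul, map_add, map_one, map_natCast]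
      push_cast
      show (p.coeff (i + 1) : F) * _ * _ = _
      ring
    rw [e2]
    exact h6
  have hqi : Itg k u (qd k u θ) := PB_le_Bb u θ hint hqB
  obtain ⟨q, hq⟩ : ∃ q, q = minpoly (kF k u) (qd k u θ) := ⟨_, rfl⟩
  have hqii : IsIntegral (kF k u) (qd k u θ) := IsIntegral.of_finite (kF k u) _
  have hcf := h2 k F (Fin 3) u hu _ hqi
  rw [← hq] at hcf
  obtain ⟨P, hP⟩ := hcf 0
  have hP0 : P ≠ 0 := by
    intro h
    rw [h, map_zero] at hP
    have h5 := minpoly.coeff_zero_ne_zero hqii hq0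
    rw [← hq] at h5
    exact h5 (Subtype.ext hP)
  have hPm := h3 k F (Fin 3) u E hE _ _ hqii.isAlgebraic hqm 0
  rw [← hq, hP] at hPm
  have hPh := (h4 k F (Fin 3) u hu E hE P _ hPm).1 (q.natDegree * (p.natDegree - 1)) (by
    rw [Nat.cast_mul, Nat.cast_sub hn1]
    push_cast
    ring)
  refine ⟨P, _, hP0, hPh, Nat.mul_le_mul (by rw [hq]; exact minpoly.natDegree_le _)
    (Nat.sub_le_sub_right (by rw [hp]; exact minpoly.natDegree_le _) 1), -∑ j ∈ Finset.range q.natDegree, (q.coeff (j + 1) : F) *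
    qd k u θ ^ j, ?_, ?_⟩
  · refine (PB k u θ).neg_mem ((PB k u θ).sum_mem fun j _ => ?_)
    refine (PB k u θ).mul_mem ?_ ((PB k u θ).pow_mem hqB _)
    obtain ⟨R, hR⟩ := hcf (j + 1)
    rw [hR]
    exact Algebra.adjoin_mono (Set.subset_insert _ _) ((mem_PA u _).2 ⟨R, rfl⟩)
  · have h5 : Polynomial.aeval (qd k u θ) q = 0 := by rw [hq]; exact minpoly.aeval _ _
    rw [Polynomial.aeval_eq_sum_range, Finset.sum_range_succ'] at h5
    rw [← hP]
    have h6 : ∀ j : ℕ, q.coeff j • qd k u θ ^ j = (q.coeff j : F) * qd k u θ ^ j := fun j => rfl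
    simp only [h6] at h5
    rw [pow_zero, mul_one] at h5
    have h7 : ∑ j ∈ Finset.range q.natDegree, (q.coeff (j + 1) : F) * qd k u θ ^ (j + 1) =
        qd k u θ * ∑ j ∈ Finset.range q.natDegree, (q.coeff (j + 1) : F) * qd k u θ ^ j := by
      rw [Finset.mul_sum]
      refine Finset.sum_congr rfl fun j _ => ?_
      ring
    rw [h7] at h5
    linear_combination h5

/-- the denominator, of degree `3 δ (δ - 1)` -/
theorem jexu {k F : Type} [Field k] [CharZero k] [Field F] [Algebra k F] (u : Fin 3 → F)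
    (θ : F) (dd : Fin 3 → Derivation k F F) (hu : AlgebraicIndependent k u)
    (hfd : FiniteDimensional (kF k u) F) (hgen : IntermediateField.adjoin (kF k u) {θ} = ⊤)
    (hθ : Itg k u θ) (hdd : ∀ l j, dd l (u j) = if l = j then 1 else 0) (hE : eu u dd θ = θ)
    (δ : ℕ) (hδ : Module.finrank (kF k u) F = δ) :
    ∃ J : MvPolynomial (Fin 3) k, J.IsHomogeneous (3 * (δ * (δ - 1))) ∧ J ≠ 0 ∧
      (∀ a, Itg k u a → aeval u J * a ∈ PB k u θ) ∧
      (∀ a l, Itg k u a → aeval u J * dd l a ∈ PB k u θ) ∧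
      ∃ b ∈ PB k u θ, aeval u J = qd k u θ * b := by
  have hEu : ∀ l, eu u dd (u l) = u l := eu_u u dd hdd
  obtain ⟨hA1, hA2, hA3⟩ := A.qda k F (Fin 3) u θ hu hfd hgen hθ
  obtain ⟨P, e, hP0, hPe, hee, b, hb, hPb⟩ := qdhu u θ (eu u dd) hu hfd hθ hEu hE hA3 hA2
  rw [hδ] at hee
  obtain ⟨s, hs⟩ : ∃ s, s = 3 * (δ * (δ - 1)) - e * 3 := ⟨_, rfl⟩
  obtain ⟨q, hq⟩ : ∃ q : F, q = qd k u θ := ⟨_, rfl⟩
  rw [← hq] at hA1 hA2 hA3 hPb
  have hD : ∀ l : Fin 3, ∀ x ∈ PB k u θ, q * dd l x ∈ PB k u θ := by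
    intro l x hx
    rw [hq]
    refine A.qdd k F (Fin 3) u θ hu hfd hθ (dd l) (fun i => ?_) x hx
    rw [hdd]
    split_ifs
    · exact (PA k u).one_mem
    · exact (PA k u).zero_mem
  have hus : u 0 ^ s ∈ PB k u θ := (PB k u θ).pow_mem
    (Algebra.subset_adjoin (Or.inr ⟨0, rfl⟩)) s
  obtain ⟨w, hw, hwm⟩ : ∃ w, w = u 0 ^ s ∧ w ∈ PB k u θ := ⟨_, rfl, hus⟩
  have hJ : aeval u (P ^ 3 * MvPolynomial.X 0 ^ s) = q ^ 3 * b ^ 3 * w := by
    rw [map_mul, map_pow, map_pow, hPb, mul_pow, aeval_X, hw]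
  refine ⟨P ^ 3 * MvPolynomial.X 0 ^ s, ?_, mul_ne_zero (pow_ne_zero 3 hP0)
    (pow_ne_zero s (MvPolynomial.X_ne_zero 0)), fun a ha => ?_, fun a l ha => ?_,
    q ^ 2 * b ^ 3 * w, ?_, ?_⟩
  · have h5 := (hPe.pow 3).mul ((isHomogeneous_X k (0 : Fin 3)).pow s)
    have h6 : e * 3 + 1 * s = 3 * (δ * (δ - 1)) := by
      rw [hs]
      omega
    rwa [h6] at h5
  · rw [hJ]
    have h5 : q ^ 3 * b ^ 3 * w * a = q * a * (q ^ 2 * b ^ 3 * w) := by ring
    rw [h5]
    exact (PB k u θ).mul_mem (hA1 a ha)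
      ((PB k u θ).mul_mem ((PB k u θ).mul_mem ((PB k u θ).pow_mem hA2 2)
        ((PB k u θ).pow_mem hb 3)) hwm)
  · rw [hJ]
    have h5 : dd l (q * a) = q * dd l a + a * dd l q := by
      rw [Derivation.leibniz, smul_eq_mul, smul_eq_mul]
    have h6 : q ^ 3 * b ^ 3 * w * dd l a =
        b ^ 3 * w * (q * (q * dd l (q * a)) - q * a * (q * dd l q)) := by
      rw [h5]
      ring
    rw [h6]
    exact (PB k u θ).mul_mem ((PB k u θ).mul_mem ((PB k u θ).pow_mem hb 3) hwm)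
      ((PB k u θ).sub_mem
      ((PB k u θ).mul_mem hA2 (hD l _ (hA1 a ha)))
      ((PB k u θ).mul_mem (hA1 a ha) (hD l _ hA2)))
  · exact (PB k u θ).mul_mem ((PB k u θ).mul_mem ((PB k u θ).pow_mem hA2 2)
      ((PB k u θ).pow_mem hb 3)) hwm
  · rw [hJ, ← hq]
    ring

/-- the surface with a given projection: the constants depend on the degree only -/
theorem sfcu {k F σ : Type} [Field k] [CharZero k] [Field F] [Algebra k F] [Fintype σ]
    (X : σ → F) (hX : Cone k X) (u : Fin 3 → F) (hind : AlgebraicIndependent k u)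
    (hul : ∀ l, u l ∈ Submodule.span k (Set.range X)) (hXi : ∀ s, Itg k u (X s))
    (hfin : FiniteDimensional (kF k u) F) (δ : ℕ) (hδ : Module.finrank (kF k u) F = δ) :
    ∃ (θ : F) (dd : Fin 3 → Derivation k F F) (J : MvPolynomial (Fin 3) k),
      Sfc u dd δ (3 * (δ * (δ - 1))) (3 * (δ * (δ - 1)) + δ + 2) J ∧ Prj X u θ dd J := by
  have htop : IntermediateField.adjoin (kF k u) (Set.range X) = ⊤ := by
    have h1 : (IntermediateField.adjoin k (Set.range X)) ≤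
        (IntermediateField.adjoin (kF k u) (Set.range X)).restrictScalars k := by
      rw [IntermediateField.adjoin_le_iff]
      exact IntermediateField.subset_adjoin (kF k u) (Set.range X)
    rw [hX.top] at h1
    refine top_unique fun a _ => ?_
    exact h1 (IntermediateField.mem_top (x := a))
  obtain ⟨θ, htl, hgen⟩ := A.pre k F σ (kF k u) hfin X htop
  obtain ⟨dd, hdd⟩ := A.dex k F u hind hfin
  have hpr := A.dpr k F u dd hfin hdd
  have hXe : ∀ s, eu u dd (X s) = X s := A.eul k F σ X hX.hmg u (eu u dd) hind hul hXi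
    (eu_u u dd hdd)
  have hte : eu u dd θ = θ := span_ind (p := fun a => eu u dd a = a) (map_zero _) hXe
    (fun a b ha hb => by rw [map_add, ha, hb]) (fun c a ha => by rw [Derivation.map_smul, ha]) htl
  have hti : Itg k u θ := span_ind (p := fun a => Itg k u a) (Bb k u).zero_mem hXi
    (fun a b ha hb => (Bb k u).add_mem ha hb) (fun c a ha => (Bb k u).smul_mem ha c) htl
  obtain ⟨J, hJh, hJ0, hJI, hJd, hJq⟩ := jexu u θ dd hind hfin hgen hti hdd hte δ hδ
  have hB := A.bbd k F u θ dd J _ hind hfin hgen hti hdd hte hJh hJ0 hJI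
  have hN := A.bbn k F u θ dd J _ _ hind hfin hδ hgen hti hdd hte hJh hJ0 hJI
  refine ⟨θ, dd, J, ?_, ?_⟩
  · exact ⟨hind, hδ, hδ ▸ Module.finrank_pos, hdd, fun l l' a => hpr.2 l l' a, hJh, hJ0,
      fun l a ha => PB_le_Bb u θ hti (hJd a l ha),
      A.chn k F u θ dd J hind hfin hti hdd hJI hJd hJq,
      A.grd k F σ X u θ dd J _ hX.hmg hul htl hXe hJh
        (fun h0 => hJ0 ((injective_iff_map_eq_zero _).1 hind J h0)) hJI, hB.1,
      hB.2.1, hN.1, hN.2⟩
  · exact ⟨hul, htl, hXi, hXe, hgen, hJI, hJd, hJq⟩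

end Pool.Agent.H17.SFG
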